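import Mathlib

/-!
# Order of vanishing at 1 of polynomials with coefficients -1, 0, 1: definitions and module statements

Project MP_178164_nt (helper1). Goal: `M(n) ≥ c √(n log log n / log n)`.

Idea. Let `D` be the product of the cyclotomic polynomials `Φ_d ^ m_d`, `d ≤ K`. If two of the `2 ^ N`
polynomials of degree `< N` with coefficients in `{0, 1}` are congruent modulo `D`, their difference is
divisible by `Φ_1 ^ m_1`. The number of residues is at most `(2 N + 1) ^ n` times the largest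
`n × n` minor of the matrix of the reductions of `1, x, …, x ^ (N - 1)` modulo `D`, `n = deg D`
(module C1), and this minor is at most `n! ∏ binom(N, j)` divided by the square root of the product of
`|ζ - ξ|` over the pairs of different roots of `D` (modules V, C). That product is computed exactly
(modules P, E) as a main term minus a Dirichlet form, which is small for
`m_d = ⌊κ / d⌋ · #{j < J : all the prime factors of d are > 2 ^ (2 ^ j)}`.
-/

set_option autoImplicit false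

open scoped BigOperators
open Finset Polynomial

namespace Pool.Agent.T6.H1.OV

open Classical in
/-- the number of earlier indices with the same value -/
noncomputable def idx {n : ℕ} (z : Fin n → ℂ) (i : Fin n) : ℕ :=
  (univ.filter fun t => t < i ∧ z t = z i).card

/-- the confluent Vandermonde matrix: the `idx z i`-th divided derivative of `x ^ l` at `z i` -/
noncomputable def W {n : ℕ} (z : Fin n → ℂ) : Matrix (Fin n) (Fin n) ℂ := fun i l =>
  ((l : ℕ).choose (idx z i) : ℂ) * z i ^ ((l : ℕ) - idx z i)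

/-- the sum of the logarithms of the distances (equal points contribute `log 0 = 0`) -/
noncomputable def PL {n : ℕ} (z : Fin n → ℂ) : ℝ := ∑ i, ∑ t, Real.log ‖z i - z t‖

/-- the roots of unity of order at most `K` -/
noncomputable def Om (K : ℕ) : Finset ℂ := (Icc 1 K).biUnion fun a => nthRootsFinset a (1 : ℂ)

/-- `∑_{q ≤ y} Λ(q) / q` -/
noncomputable def A (y : ℕ) : ℝ := ∑ q ∈ Icc 1 y, ArithmeticFunction.vonMangoldt q / q

/-- the Dirichlet form -/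
noncomputable def EE (K : ℕ) (m : ℕ → ℝ) : ℝ :=
  ∑ e ∈ Icc 1 K, ∑ q ∈ Icc 1 (K / e),
    (Nat.totient e : ℝ) * (ArithmeticFunction.vonMangoldt q / q) * (m e - q * m (e * q)) ^ 2

/-- the number of scales `j < J` such that all the prime factors of `d` are larger than `2 ^ (2 ^ j)` -/
noncomputable def tt (J d : ℕ) : ℕ := by
  classical exact ((range J).filter fun j => ∀ p : ℕ, p.Prime → p ∣ d → 2 ^ (2 ^ j) < p).card

/-- the multiplicities -/
noncomputable def mm (κ K J d : ℕ) : ℕ := if 1 ≤ d ∧ d ≤ K then κ / d * tt J d else 0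

/-! ### Module statements -/

/-- V: the determinant of the confluent Vandermonde matrix. -/
def StmtV : Prop := ∀ (n : ℕ) (z : Fin n → ℂ), (W z).det ≠ 0 ∧ 2 * Real.log ‖(W z).det‖ = PL z

/-- C1: few images of the cube if all maximal minors are small. -/
def StmtC1 : Prop := ∀ (n N : ℕ) (M : Matrix (Fin n) (Fin N) ℤ) (Δ : ℝ),
  (∀ f : Fin n → Fin N, |((M.submatrix id f).det : ℝ)| ≤ Δ) →
  (∃ f : Fin n → Fin N, (M.submatrix id f).det ≠ 0) →
  (((univ : Finset (Fin N → Fin 2)).image fun x => M.mulVec fun j => ((x j : ℕ) : ℤ)).card : ℝ) ≤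
    (2 * (N : ℝ) + 1) ^ n * Δ

/-- C: the criterion (from V and C1). -/
def StmtC : Prop := ∀ (n N : ℕ) (z : Fin n → ℂ) (D : ℤ[X]), n ≤ N → (∀ i, ‖z i‖ = 1) → D.Monic →
  D.map (Int.castRingHom ℂ) = ∏ i, (X - C (z i)) →
  n * Real.log (2 * N + 1) + Real.log (n.factorial) + ∑ i, Real.log (N.choose (idx z i)) <
    N * Real.log 2 + PL z / 2 →
  ∃ p : ℤ[X], p ≠ 0 ∧ p.natDegree < N ∧ (∀ j, |p.coeff j| ≤ 1) ∧ D ∣ p

/-- L: the list of the roots of a product of cyclotomic polynomials. -/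
def StmtL : Prop := ∀ (K : ℕ) (m : ℕ → ℕ), ∃ (n : ℕ) (z : Fin n → ℂ),
  n = ∑ d ∈ Icc 1 K, Nat.totient d * m d ∧ (∀ i, ‖z i‖ = 1) ∧
  (∏ d ∈ Icc 1 K, cyclotomic d ℤ ^ m d).map (Int.castRingHom ℂ) = ∏ i, (X - C (z i)) ∧
  (∀ f : ℕ → ℝ, ∑ i, f (idx z i) = ∑ d ∈ Icc 1 K, (Nat.totient d : ℝ) * ∑ j ∈ range (m d), f j) ∧
  PL z = ∑ ζ ∈ Om K, ∑ ξ ∈ Om K, (m (orderOf ζ) : ℝ) * (m (orderOf ξ) : ℝ) * Real.log ‖ζ - ξ‖

/-- P: the distances between the `a`-th and the `b`-th roots of unity. -/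
def StmtP : Prop := ∀ a b : ℕ, 0 < a → 0 < b →
  ∑ ζ ∈ nthRootsFinset a (1 : ℂ), ∑ ξ ∈ nthRootsFinset b (1 : ℂ), Real.log ‖ζ - ξ‖ =
    (a.gcd b : ℝ) * Real.log (a.lcm b)

/-- E: the energy identity (from P). -/
def StmtE : Prop := ∀ (K : ℕ) (m : ℕ → ℝ),
  ∑ ζ ∈ Om K, ∑ ξ ∈ Om K, m (orderOf ζ) * m (orderOf ξ) * Real.log ‖ζ - ξ‖ =
    ∑ d ∈ Icc 1 K, (Nat.totient d : ℝ) * m d ^ 2 * (2 * Real.log d + A (K / d)) - EE K m

/-- A: Mertens. -/
def StmtA : Prop := ∃ C : ℝ, 0 < C ∧ (∀ y : ℕ, 1 ≤ y → |A y - Real.log y| ≤ C) ∧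
  ∀ z : ℕ, 1 ≤ z → ∑ p ∈ (Icc 1 z).filter Nat.Prime, Real.log p / (p - 1) ≤ Real.log z + C

open Classical in
/-- R: integers without small prime factors. -/
def StmtR : Prop := ∃ C : ℝ, 0 < C ∧ ∀ K z : ℕ, 2 ≤ z → z ≤ K →
  ∑ e ∈ (Icc 1 K).filter (fun e => ∀ p : ℕ, p.Prime → p ∣ e → z < p), (1 : ℝ) / e ≤
    C * Real.log K / Real.log z

/-- S1: the mass (from R). -/
def StmtS1 : Prop := ∃ C : ℝ, 0 < C ∧ ∀ κ K J : ℕ, 2 ^ (2 ^ J) ≤ K →
  ∑ d ∈ Icc 1 K, (Nat.totient d : ℝ) * (mm κ K J d : ℝ) ^ 2 ≤ C * κ ^ 2 * Real.log K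

/-- S2: the Dirichlet form (from R and A). -/
def StmtS2 : Prop := ∃ C : ℝ, 0 < C ∧ ∀ κ K J : ℕ, 2 ^ (2 ^ J) ≤ K →
  EE K (fun d => (mm κ K J d : ℝ)) ≤
    C * (κ ^ 2 * J * Real.log K + J ^ 2 * K ^ 2 * Real.log K ^ 2)

/-- G: the existence theorem with parameters (from C, L, E, A, S1, S2). -/
def StmtG : Prop := ∃ C : ℝ, 0 < C ∧ ∀ N κ K J : ℕ, 1 ≤ J → 2 ^ (2 ^ J) ≤ K → K ≤ κ →
  κ * K * J ≤ N →
  C * (κ * K * J * Real.log N + κ ^ 2 * Real.log K * (Real.log (N / (κ * K)) + 1) +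
    κ ^ 2 * J * Real.log K + J ^ 2 * K ^ 2 * Real.log K ^ 2) ≤ N →
  ∃ p : ℤ[X], p ≠ 0 ∧ p.natDegree < N ∧ (∀ j, |p.coeff j| ≤ 1) ∧ (X - 1) ^ (κ * J) ∣ p

/-- F: the lower bound (from G). -/
def StmtF : Prop := ∃ c : ℝ, 0 < c ∧ ∀ n : ℕ, 3 ≤ n → ∃ (k : ℕ) (p : ℤ[X]),
  p ≠ 0 ∧ p.natDegree ≤ n ∧ (∀ j, |p.coeff j| ≤ 1) ∧ (X - 1) ^ k ∣ p ∧
  c * Real.sqrt (n * Real.log (Real.log n) / Real.log n) ≤ k

end Pool.Agent.T6.H1.OV
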