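import Mathlib
import Pool.Agent.T6.H1.OV.Defs

/-!
Project OV (helper1), module C (helper43): the criterion for divisibility by a given polynomial.
-/

set_option autoImplicit false

open scoped BigOperators
open Finset Polynomial

namespace Pool.Agent.T6.H1.OV

namespace ModC

/-- the polynomial with given coefficients -/
noncomputable def px {N : ℕ} (x : Fin N → ℤ) : ℤ[X] := ∑ j : Fin N, x j • (X : ℤ[X]) ^ (j : ℕ)

lemma px_coeff {N : ℕ} (x : Fin N → ℤ) (j : Fin N) : (px x).coeff (j : ℕ) = x j := by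
  rw [px, finset_sum_coeff, Finset.sum_eq_single j]
  · simp
  · intro b _ hb
    rw [coeff_smul, coeff_X_pow, if_neg (fun h => hb (Fin.ext h.symm)), smul_zero]
  · intro h; exact absurd (Finset.mem_univ j) h

lemma px_coeff' {N : ℕ} (x : Fin N → ℤ) (k : ℕ) (h : N ≤ k) : (px x).coeff k = 0 := by
  rw [px, finset_sum_coeff]
  refine Finset.sum_eq_zero fun j _ => ?_
  rw [coeff_smul, coeff_X_pow, if_neg (by have := j.2; omega), smul_zero]

/-- the matrix of the reductions -/
noncomputable def MM (n N : ℕ) (D : ℤ[X]) : Matrix (Fin n) (Fin N) ℤ :=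
  fun l j => ((X : ℤ[X]) ^ (j : ℕ) %ₘ D).coeff (l : ℕ)

lemma px_mod {N : ℕ} (D : ℤ[X]) (x : Fin N → ℤ) (l : ℕ) :
    (px x %ₘ D).coeff l = ∑ j : Fin N, x j * ((X : ℤ[X]) ^ (j : ℕ) %ₘ D).coeff l := by
  rw [← modByMonicHom_apply, px, map_sum, finset_sum_coeff]
  refine Finset.sum_congr rfl fun j _ => ?_
  rw [map_smul, coeff_smul, modByMonicHom_apply, smul_eq_mul]

open Classical in
lemma D_taylor {n : ℕ} (z : Fin n → ℂ) (P : ℂ[X]) (i : Fin n) :
    (taylor (z i) ((∏ t, (X - C (z t))) * P)).coeff (idx z i) = 0 := by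
  have h : taylor (z i) (∏ t, (X - C (z t))) = ∏ t, (X + C (z i - z t)) := by
    rw [← taylorAlgHom_apply, map_prod]
    refine Finset.prod_congr rfl fun t _ => ?_
    rw [taylorAlgHom_apply, map_sub, taylor_X, taylor_C, C_sub]
    ring
  rw [taylor_mul, h, ← Finset.prod_filter_mul_prod_filter_not _ (fun t => z t = z i)]
  have e : ∏ t ∈ univ.filter (fun t => z t = z i), (X + C (z i - z t)) =
      (X : ℂ[X]) ^ (univ.filter (fun t => z t = z i)).card := by
    rw [← Finset.prod_const]
    refine Finset.prod_congr rfl fun t ht => ?_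
    rw [Finset.mem_filter] at ht
    rw [ht.2]
    simp
  rw [e, mul_assoc, coeff_X_pow_mul', if_neg]
  rw [not_le, idx]
  refine Finset.card_lt_card ?_
  rw [Finset.ssubset_iff_of_subset]
  · exact ⟨i, by simp, by simp⟩
  · intro t ht
    rw [Finset.mem_filter] at ht ⊢
    exact ⟨ht.1, ht.2.2⟩

lemma W_apply {n : ℕ} (z : Fin n → ℂ) (i : Fin n) (P : ℂ[X]) (hP : P.natDegree < n) :
    ∑ l, W z i l * P.coeff (l : ℕ) = (taylor (z i) P).coeff (idx z i) := by
  rw [taylor_coeff, hasseDeriv_apply, eval_sum, sum_over_range' _ _ n hP]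
  · rw [← Fin.sum_univ_eq_sum_range (fun a => eval (z i) ((monomial (a - idx z i))
      (((a.choose (idx z i) : ℕ) : ℂ) * P.coeff a)))]
    refine Finset.sum_congr rfl fun t _ => ?_
    rw [eval_monomial, W]
    ring
  · intro a
    simp

lemma det_norm_le {n : ℕ} (U : Matrix (Fin n) (Fin n) ℂ) (b : Fin n → ℝ)
    (h : ∀ i a, ‖U i a‖ ≤ b i) : ‖U.det‖ ≤ n.factorial * ∏ i, b i := by
  rw [Matrix.det_apply]
  refine (norm_sum_le _ _).trans ?_
  have : ∀ σ ∈ (univ : Finset (Equiv.Perm (Fin n))),
      ‖Equiv.Perm.sign σ • ∏ i, U (σ i) i‖ ≤ ∏ i, b i := by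
    intro σ _
    have e : ‖Equiv.Perm.sign σ • ∏ i, U (σ i) i‖ = ∏ i, ‖U (σ i) i‖ := by
      rcases Int.units_eq_one_or (Equiv.Perm.sign σ) with hs | hs <;> rw [hs] <;> simp [norm_prod]
    rw [e, ← Equiv.prod_comp σ b]
    exact Finset.prod_le_prod (fun i _ => norm_nonneg _) fun i _ => h _ _
  refine (Finset.sum_le_sum this).trans ?_
  rw [Finset.sum_const, Finset.card_univ, Fintype.card_perm, Fintype.card_fin, nsmul_eq_mul]

end ModC

open ModC in
theorem c (hV : StmtV) (hC1 : StmtC1) : StmtC := by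
  classical
  intro n N z D hnN hz hD hDz hlt
  obtain ⟨hW0, hWlog⟩ := hV n z
  have hdeg : D.natDegree = n := by
    have h1 := hD.natDegree_map (Int.castRingHom ℂ)
    rw [hDz, natDegree_prod_of_monic _ _ fun t _ => monic_X_sub_C (z t)] at h1
    simpa using h1.symm
  have hN : 0 < N := by
    rcases Nat.eq_zero_or_pos N with rfl | h
    · exfalso
      have : n = 0 := by omega
      subst this
      simp [PL] at hlt
    · exact h
  have hidx : ∀ i, idx z i < n := by
    intro i
    have h1 : idx z i ≤ (univ.filter (fun t : Fin n => t < i)).card := by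
      rw [idx]
      refine Finset.card_le_card ?_
      intro t ht
      rw [Finset.mem_filter] at ht ⊢
      exact ⟨ht.1, ht.2.1⟩
    have h2 : (univ.filter (fun t : Fin n => t < i)).card = (i : ℕ) := by
      have : univ.filter (fun t : Fin n => t < i) = Finset.Iio i := by
        ext t; simp
      rw [this, Fin.card_Iio]
    have := i.2
    omega
  have hchoose : ∀ i, (0 : ℝ) < N.choose (idx z i) := by
    intro i
    have := hidx i
    exact_mod_cast Nat.choose_pos (by omega)
  -- the minors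
  set Δ : ℝ := n.factorial * (∏ i, (N.choose (idx z i) : ℝ)) / ‖(W z).det‖ with hΔ
  have hWpos : 0 < ‖(W z).det‖ := norm_pos_iff.2 hW0
  have hmod : ∀ j : ℕ, ((X : ℤ[X]) ^ j %ₘ D).natDegree < n ∨ n = 0 := by
    intro j
    rcases Nat.eq_zero_or_pos n with h | h
    · exact Or.inr h
    · refine Or.inl ?_
      have := natDegree_modByMonic_lt ((X : ℤ[X]) ^ j) hD (by
        intro h1
        rw [h1, natDegree_one] at hdeg
        omega)
      omega
  have hminor : ∀ f : Fin n → Fin N, |(((MM n N D).submatrix id f).det : ℝ)| ≤ Δ := by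
    intro f
    set Mf := ((MM n N D).submatrix id f).map (Int.castRingHom ℂ) with hMf
    have hdet : Mf.det = (((MM n N D).submatrix id f).det : ℂ) := by
      rw [hMf, ← RingHom.mapMatrix_apply, ← RingHom.map_det]
      rfl
    have hU : ∀ i a, (W z * Mf) i a = ((f a : ℕ).choose (idx z i) : ℂ) *
        z i ^ ((f a : ℕ) - idx z i) := by
      intro i a
      have hn : n ≠ 0 := by
        intro h; subst h; exact i.elim0
      have e1 : (W z * Mf) i a = ∑ l, W z i l *
          (((X : ℤ[X]) ^ (f a : ℕ) %ₘ D).map (Int.castRingHom ℂ)).coeff (l : ℕ) := by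
        rw [Matrix.mul_apply]
        refine Finset.sum_congr rfl fun l _ => ?_
        rw [hMf, Matrix.map_apply, Matrix.submatrix_apply, MM, coeff_map]
        rfl
      have hdeg' : (((X : ℤ[X]) ^ (f a : ℕ) %ₘ D).map (Int.castRingHom ℂ)).natDegree < n :=
        lt_of_le_of_lt natDegree_map_le ((hmod (f a)).resolve_right hn)
      rw [e1, W_apply z i _ hdeg']
      have e2 : (X : ℂ[X]) ^ (f a : ℕ) = ((X : ℤ[X]) ^ (f a : ℕ) %ₘ D).map (Int.castRingHom ℂ) +
          (∏ t, (X - C (z t))) * ((X : ℤ[X]) ^ (f a : ℕ) /ₘ D).map (Int.castRingHom ℂ) := by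
        rw [← hDz, ← Polynomial.map_mul, ← Polynomial.map_add, modByMonic_add_div]
        simp
      have e3 : (taylor (z i) (((X : ℤ[X]) ^ (f a : ℕ) %ₘ D).map (Int.castRingHom ℂ))).coeff
          (idx z i) = (taylor (z i) ((X : ℂ[X]) ^ (f a : ℕ))).coeff (idx z i) := by
        rw [e2, map_add, coeff_add, D_taylor, add_zero]
      rw [e3, taylor_coeff, ← monomial_one_right_eq_X_pow, hasseDeriv_monomial, eval_monomial]
      ring
    have hnorm : ∀ i a, ‖(W z * Mf) i a‖ ≤ (N.choose (idx z i) : ℝ) := by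
      intro i a
      rw [hU, norm_mul, norm_pow, hz, one_pow, mul_one, Complex.norm_natCast]
      exact_mod_cast Nat.choose_le_choose _ (f a).2.le
    have hb := det_norm_le _ _ hnorm
    rw [Matrix.det_mul, norm_mul, hdet] at hb
    have e4 : ‖((((MM n N D).submatrix id f).det : ℤ) : ℂ)‖ =
        |(((MM n N D).submatrix id f).det : ℝ)| := by
      rw [Complex.norm_intCast]
    rw [e4] at hb
    rw [hΔ, le_div_iff₀ hWpos]
    linarith
  have hone : ∃ f : Fin n → Fin N, ((MM n N D).submatrix id f).det ≠ 0 := by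
    refine ⟨Fin.castLE hnN, ?_⟩
    have : (MM n N D).submatrix id (Fin.castLE hnN) = 1 := by
      ext l a
      rw [Matrix.submatrix_apply, MM, Matrix.one_apply]
      have h1 : ((X : ℤ[X]) ^ ((Fin.castLE hnN a : Fin N) : ℕ) %ₘ D) = X ^ (a : ℕ) := by
        rw [Fin.val_castLE]
        rw [(modByMonic_eq_self_iff hD).2]
        rw [degree_X_pow, degree_eq_natDegree hD.ne_zero, hdeg]
        exact_mod_cast a.2
      rw [h1, coeff_X_pow]
      simp [Fin.ext_iff]
    rw [this, Matrix.det_one]
    exact one_ne_zero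
  have hcard := hC1 n N (MM n N D) Δ hminor hone
  have hnotinj : ¬ Function.Injective (fun x : Fin N → Fin 2 =>
      (MM n N D).mulVec fun j => ((x j : ℕ) : ℤ)) := by
    intro hinj
    rw [Finset.card_image_of_injective _ hinj, Finset.card_univ, Fintype.card_fun,
      Fintype.card_fin, Fintype.card_fin] at hcard
    push_cast at hcard
    have h2 : (0 : ℝ) < 2 ^ N := by positivity
    have hlog := Real.log_le_log h2 hcard
    have hf : (n.factorial : ℝ) ≠ 0 := by exact_mod_cast Nat.factorial_ne_zero n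
    have hp : (∏ i, (N.choose (idx z i) : ℝ)) ≠ 0 :=
      Finset.prod_ne_zero_iff.2 fun i _ => (hchoose i).ne'
    have hΔ0 : Δ ≠ 0 := by
      rw [hΔ]; exact div_ne_zero (mul_ne_zero hf hp) hWpos.ne'
    have h3 : ((2 : ℝ) * N + 1) ^ n ≠ 0 := by positivity
    rw [Real.log_pow, Real.log_mul h3 hΔ0, Real.log_pow, hΔ,
      Real.log_div (mul_ne_zero hf hp) hWpos.ne', Real.log_mul hf hp,
      Real.log_prod (fun i _ => (hchoose i).ne')] at hlog
    linarith
  rw [Function.Injective] at hnotinj
  push_neg at hnotinj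
  obtain ⟨x, y, hxy, hne⟩ := hnotinj
  set w : Fin N → ℤ := fun j => ((x j : ℕ) : ℤ) - ((y j : ℕ) : ℤ) with hw
  refine ⟨px w, ?_, ?_, ?_, ?_⟩
  · intro h0
    apply hne
    funext j
    have := px_coeff w j
    rw [h0, coeff_zero] at this
    rw [hw] at this
    simp only at this
    exact Fin.ext (by omega)
  · rcases eq_or_ne (px w) 0 with h0 | h0
    · rw [h0, natDegree_zero]; exact hN
    · rw [natDegree_lt_iff_degree_lt h0, degree_lt_iff_coeff_zero]
      exact fun k hk => px_coeff' w k hk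
  · intro j
    rcases Nat.lt_or_ge j N with h | h
    · have := px_coeff w ⟨j, h⟩
      simp only at this
      rw [this, hw]
      simp only
      have h1 := (x ⟨j, h⟩).2
      have h2 := (y ⟨j, h⟩).2
      rw [abs_le]
      omega
    · rw [px_coeff' w j h]
      simp
  · rw [← modByMonic_eq_zero_iff_dvd hD]
    ext l
    rw [coeff_zero]
    rcases Nat.lt_or_ge l n with h | h
    · rw [px_mod]
      have := congrFun hxy ⟨l, h⟩
      simp only [Matrix.mulVec, dotProduct, MM] at this
      rw [hw]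
      simp only [sub_mul]
      rw [Finset.sum_sub_distrib, sub_eq_zero]
      simpa only [mul_comm] using this
    · refine coeff_eq_zero_of_degree_lt ?_
      refine lt_of_lt_of_le (degree_modByMonic_lt _ hD) ?_
      rw [degree_eq_natDegree hD.ne_zero, hdeg]
      exact_mod_cast h

end Pool.Agent.T6.H1.OV
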