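import Pool.Agent.T6.H1.OV.Defs

/-!
# Module C1: few images of the cube if all maximal minors are small
-/

set_option autoImplicit false

open scoped BigOperators
open Finset Polynomial

namespace Pool.Agent.T6.H1.OV

namespace ModC1

/-- Cramer for the columns of `M`. -/
theorem cramer_col {n N : ℕ} (M : Matrix (Fin n) (Fin N) ℤ) (f : Fin n → Fin N) (j : Fin N)
    (i : Fin n) :
    ((M.submatrix id f).adjugate.mulVec fun l => M l j) i =
      (M.submatrix id (Function.update f i j)).det := by
  rw [← Matrix.cramer_eq_adjugate_mulVec, Matrix.cramer_apply]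
  congr 1
  ext l k
  by_cases hk : k = i
  · subst hk
    simp
  · simp [Matrix.updateCol_ne hk, Function.update_of_ne hk]

/-- `adj A (M x)` is a combination of minors. -/
theorem adj_mulVec {n N : ℕ} (M : Matrix (Fin n) (Fin N) ℤ) (f : Fin n → Fin N)
    (x : Fin N → ℤ) (i : Fin n) :
    ((M.submatrix id f).adjugate.mulVec (M.mulVec x)) i =
      ∑ j, x j * (M.submatrix id (Function.update f i j)).det := by
  have h : M.mulVec x = ∑ j, x j • (fun l => M l j) := by
    ext l
    simp [Matrix.mulVec, dotProduct, Finset.sum_apply, mul_comm]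
  rw [h, Matrix.mulVec_sum, Finset.sum_apply]
  refine Finset.sum_congr rfl fun j _ => ?_
  rw [Matrix.mulVec_smul, Pi.smul_apply, cramer_col, smul_eq_mul]

/-- the number of classes modulo the lattice of the columns of `A` -/
theorem card_quot {n : ℕ} (A : Matrix (Fin n) (Fin n) ℤ) (hA : A.det ≠ 0) :
    Nat.card ((Fin n → ℤ) ⧸ LinearMap.range (Matrix.toLin' A)) = A.det.natAbs := by
  have hinj : Function.Injective (Matrix.toLin' A) := by
    rw [← LinearMap.ker_eq_bot, LinearMap.ker_eq_bot']
    intro v hv
    by_contra hne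
    exact hA (Matrix.exists_mulVec_eq_zero_iff.1 ⟨v, hne, by simpa using hv⟩)
  have := Submodule.natAbs_det_equiv (LinearMap.range (Matrix.toLin' A))
    (LinearEquiv.ofInjective (Matrix.toLin' A) hinj)
  rw [← this]
  have h2 : (LinearMap.range (Matrix.toLin' A)).subtype ∘ₗ
      AddMonoidHom.toIntLinearMap
        ((LinearEquiv.ofInjective (Matrix.toLin' A) hinj : (Fin n → ℤ) ≃ₗ[ℤ] _) :
          (Fin n → ℤ) →+ LinearMap.range (Matrix.toLin' A)) = Matrix.toLin' A := by
    ext v
    rfl
  rw [h2, LinearMap.det_toLin']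

end ModC1

open ModC1 in
theorem c1 : StmtC1 := by
  intro n N M Δ hΔ hne
  classical
  obtain ⟨f₀, hf₀⟩ := hne
  obtain ⟨f, -, hf⟩ := Finset.exists_max_image (univ : Finset (Fin n → Fin N))
    (fun f => |(M.submatrix id f).det|) ⟨f₀, mem_univ _⟩
  set A := M.submatrix id f with hAdef
  set a : ℤ := |A.det| with ha
  have hapos : 0 < a := by
    have h1 : 0 < |(M.submatrix id f₀).det| := abs_pos.2 hf₀
    have h2 := hf f₀ (mem_univ _)
    omega
  have hA : A.det ≠ 0 := by
    intro h; rw [ha, h] at hapos; simp at hapos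
  have haΔ : (a : ℝ) ≤ Δ := by
    have := hΔ f
    rw [ha, Int.cast_abs]; exact this
  -- the bound of the coordinates
  have hbd : ∀ (x : Fin N → Fin 2) (i : Fin n),
      |(A.adjugate.mulVec (M.mulVec fun j => ((x j : ℕ) : ℤ))) i| ≤ N * a := by
    intro x i
    rw [hAdef, adj_mulVec]
    calc |∑ j, ((x j : ℕ) : ℤ) * (M.submatrix id (Function.update f i j)).det|
        ≤ ∑ j, |((x j : ℕ) : ℤ) * (M.submatrix id (Function.update f i j)).det| :=
          Finset.abs_sum_le_sum_abs _ _
      _ ≤ ∑ _j : Fin N, a := by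
          refine Finset.sum_le_sum fun j _ => ?_
          rw [abs_mul]
          have h1 : |((x j : ℕ) : ℤ)| ≤ 1 := by
            have : (x j : ℕ) ≤ 1 := by omega
            rw [abs_of_nonneg (by positivity)]; exact_mod_cast this
          have h2 := hf (Function.update f i j) (mem_univ _)
          calc |((x j : ℕ) : ℤ)| * |(M.submatrix id (Function.update f i j)).det|
              ≤ 1 * a := mul_le_mul h1 h2 (abs_nonneg _) (by norm_num)
            _ = a := one_mul a
      _ = N * a := by simp
  -- the map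
  let Q := (Fin n → ℤ) ⧸ LinearMap.range (Matrix.toLin' A)
  have hcardQ : Nat.card Q = a.toNat := by
    have := card_quot A hA
    rw [show Nat.card Q = A.det.natAbs from this, ha, Int.abs_eq_natAbs, Int.toNat_natCast]
  have hfinQ : Finite Q := Nat.finite_of_card_ne_zero (by rw [hcardQ]; omega)
  have : Fintype Q := Fintype.ofFinite Q
  let g : (Fin n → ℤ) → Q × (Fin n → ℤ) := fun y =>
    (Submodule.Quotient.mk y, fun i => (A.adjugate.mulVec y) i / a)
  have hginj : Function.Injective g := by
    intro y y' h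
    have h1 : (Submodule.Quotient.mk y : Q) = Submodule.Quotient.mk y' := (Prod.ext_iff.1 h).1
    have h2 : (fun i => (A.adjugate.mulVec y) i / a) = fun i => (A.adjugate.mulVec y') i / a :=
      (Prod.ext_iff.1 h).2
    rw [Submodule.Quotient.eq] at h1
    obtain ⟨w, hw⟩ := h1
    rw [Matrix.toLin'_apply] at hw
    have h3 : A.adjugate.mulVec (y - y') = A.det • w := by
      rw [← hw, Matrix.mulVec_mulVec, Matrix.adjugate_mul]
      simp
    have hw0 : w = 0 := by
      ext i
      have h4 := congrFun h2 i
      have h5 := congrFun h3 i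
      rw [Matrix.mulVec_sub] at h5
      simp only [Pi.sub_apply, Pi.smul_apply, smul_eq_mul] at h5
      have e1 := Int.emod_add_mul_ediv ((A.adjugate.mulVec y) i) a
      have e2 := Int.emod_add_mul_ediv ((A.adjugate.mulVec y') i) a
      have b1 := Int.emod_lt_of_pos ((A.adjugate.mulVec y) i) hapos
      have b2 := Int.emod_nonneg ((A.adjugate.mulVec y) i) hapos.ne'
      have b3 := Int.emod_lt_of_pos ((A.adjugate.mulVec y') i) hapos
      have b4 := Int.emod_nonneg ((A.adjugate.mulVec y') i) hapos.ne'
      rw [h4] at e1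
      have h6 : |A.det * w i| < a := by
        rw [← h5, abs_lt]; constructor <;> linarith
      rw [abs_mul, ← ha] at h6
      have h7 : |w i| < 1 := by
        by_contra hcon
        push Not at hcon
        nlinarith
      simpa using Int.abs_lt_one_iff.1 h7
    rw [hw0, Matrix.mulVec_zero] at hw
    exact (sub_eq_zero.1 hw.symm)
  -- the images
  set S := (univ : Finset (Fin N → Fin 2)).image fun x => M.mulVec fun j => ((x j : ℕ) : ℤ)
    with hS
  have hsub : S.image g ⊆ (univ : Finset Q) ×ˢ
      (Fintype.piFinset fun _ : Fin n => Finset.Icc (-(N : ℤ)) N) := by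
    intro z hz
    rw [mem_image] at hz
    obtain ⟨y, hy, rfl⟩ := hz
    rw [hS, mem_image] at hy
    obtain ⟨x, -, rfl⟩ := hy
    rw [mem_product]
    refine ⟨mem_univ _, ?_⟩
    rw [Fintype.mem_piFinset]
    intro i
    have h := abs_le.1 (hbd x i)
    rw [mem_Icc]
    constructor
    · show -(N : ℤ) ≤ _ / a
      rw [Int.le_ediv_iff_mul_le hapos]
      linarith [h.1]
    · show _ / a ≤ (N : ℤ)
      have : (A.adjugate.mulVec (M.mulVec fun j => ((x j : ℕ) : ℤ))) i / a < (N : ℤ) + 1 := by
        rw [Int.ediv_lt_iff_lt_mul hapos]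
        linarith [h.2]
      omega
  have hcard := Finset.card_le_card hsub
  rw [Finset.card_image_of_injective _ hginj, Finset.card_product, Fintype.card_piFinset] at hcard
  simp only [Int.card_Icc, Finset.prod_const, Finset.card_univ, Fintype.card_fin] at hcard
  have hQ : Fintype.card Q = a.toNat := by rw [← hcardQ, Nat.card_eq_fintype_card]
  rw [hQ] at hcard
  have h8 : ((N : ℤ) + 1 - -(N : ℤ)).toNat = 2 * N + 1 := by omega
  rw [h8] at hcard
  calc (S.card : ℝ) ≤ ((a.toNat * (2 * N + 1) ^ n : ℕ) : ℝ) := by exact_mod_cast hcard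
    _ = (a : ℝ) * (2 * (N : ℝ) + 1) ^ n := by
        push_cast
        congr 1
        have : ((a.toNat : ℤ) : ℝ) = (a : ℝ) := by
          rw [Int.toNat_of_nonneg hapos.le]
        exact_mod_cast this
    _ ≤ Δ * (2 * (N : ℝ) + 1) ^ n := mul_le_mul_of_nonneg_right haΔ (by positivity)
    _ = (2 * (N : ℝ) + 1) ^ n * Δ := mul_comm _ _

end Pool.Agent.T6.H1.OV
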