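import Pool.Agent.T6.H1.OV.Defs

set_option autoImplicit false

open scoped BigOperators
open Finset Polynomial

namespace Pool.Agent.T6.H1.OV.ModE

open ArithmeticFunction

/-- inversion: `m` is a sum over multiples -/
theorem exists_c (K : ℕ) (m : ℕ → ℝ) : ∃ c : ℕ → ℝ, ∀ d ∈ Icc 1 K,
    m d = ∑ a ∈ Icc 1 K, if d ∣ a then c a else 0 := by
  have key : ∀ j : ℕ, ∃ c : ℕ → ℝ, ∀ d ∈ Icc 1 K, K < d + j →
      m d = ∑ a ∈ Icc 1 K, if d ∣ a then c a else 0 := by
    intro j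
    induction j with
    | zero =>
      refine ⟨fun _ => 0, fun d hd h => ?_⟩
      rw [mem_Icc] at hd
      omega
    | succ j ih =>
      obtain ⟨c, hc⟩ := ih
      refine ⟨Function.update c (K - j)
        (m (K - j) - ∑ a ∈ (Icc 1 K).erase (K - j), if (K - j) ∣ a then c a else 0), ?_⟩
      intro d hd h
      rw [mem_Icc] at hd
      rcases Nat.lt_or_ge K (d + j) with h1 | h1
      · rw [hc d (mem_Icc.2 hd) h1]
        refine sum_congr rfl fun a ha => ?_
        rw [mem_Icc] at ha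
        by_cases hda : d ∣ a
        · have : d ≤ a := Nat.le_of_dvd (by omega) hda
          rw [if_pos hda, if_pos hda, Function.update_of_ne (by omega)]
        · rw [if_neg hda, if_neg hda]
      · have hdK : d = K - j := by omega
        subst hdK
        have hmem : K - j ∈ Icc 1 K := mem_Icc.2 hd
        rw [← add_sum_erase _ _ hmem, if_pos (dvd_refl _), Function.update_self]
        have : ∑ x ∈ (Icc 1 K).erase (K - j), (if (K - j) ∣ x then Function.update c (K - j)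
            (m (K - j) - ∑ a ∈ (Icc 1 K).erase (K - j), if (K - j) ∣ a then c a else 0) x else 0)
            = ∑ a ∈ (Icc 1 K).erase (K - j), if (K - j) ∣ a then c a else 0 := by
          refine sum_congr rfl fun a ha => ?_
          rw [Function.update_of_ne (ne_of_mem_erase ha)]
        rw [this]
        ring
  obtain ⟨c, hc⟩ := key K
  exact ⟨c, fun d hd => hc d hd (by rw [mem_Icc] at hd; omega)⟩

theorem gcd_sum (K a b : ℕ) (ha : a ∈ Icc 1 K) :
    (Nat.gcd a b : ℝ) = ∑ d ∈ Icc 1 K, (Nat.totient d : ℝ) * (if d ∣ a then 1 else 0) *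
      (if d ∣ b then 1 else 0) := by
  rw [mem_Icc] at ha
  have hg : 0 < Nat.gcd a b := Nat.gcd_pos_of_pos_left _ (by omega)
  have hgK : Nat.gcd a b ≤ K := le_trans (Nat.le_of_dvd (by omega) (Nat.gcd_dvd_left a b)) ha.2
  have h1 : (Nat.gcd a b : ℝ) = ∑ d ∈ (Nat.gcd a b).divisors, (Nat.totient d : ℝ) := by
    rw [← Nat.cast_sum, Nat.sum_totient]
  have h2 : (Nat.gcd a b).divisors = (Icc 1 K).filter (fun d => d ∣ a ∧ d ∣ b) := by
    ext d
    rw [Nat.mem_divisors, mem_filter, mem_Icc, Nat.dvd_gcd_iff]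
    constructor
    · rintro ⟨h, _⟩
      have hd : d ∣ Nat.gcd a b := Nat.dvd_gcd h.1 h.2
      exact ⟨⟨Nat.pos_of_dvd_of_pos hd hg, (Nat.le_of_dvd hg hd).trans hgK⟩, h⟩
    · rintro ⟨_, h⟩
      exact ⟨h, hg.ne'⟩
  rw [h1, h2, sum_filter]
  refine sum_congr rfl fun d _ => ?_
  by_cases h3 : d ∣ a <;> by_cases h4 : d ∣ b <;> simp [h3, h4]

theorem log_sum (K d a : ℕ) (hd : d ∈ Icc 1 K) (ha : a ∈ Icc 1 K) (hda : d ∣ a) :
    Real.log a = Real.log d + ∑ q ∈ Icc 1 K, if d * q ∣ a then vonMangoldt q else 0 := by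
  rw [mem_Icc] at hd ha
  obtain ⟨k, rfl⟩ := hda
  have hd0 : 0 < d := hd.1
  have hk : 0 < k := Nat.pos_of_ne_zero (by rintro rfl; simp at ha)
  have hkK : k ≤ K := le_trans (Nat.le_mul_of_pos_left k hd0) ha.2
  have h1 : Real.log ((d * k : ℕ) : ℝ) = Real.log d + Real.log k := by
    rw [Nat.cast_mul, Real.log_mul (by positivity) (by positivity)]
  have h2 : Real.log k = ∑ i ∈ k.divisors, vonMangoldt i := vonMangoldt_sum.symm
  rw [h1, h2, ← sum_filter]
  refine congrArg (fun x : ℝ => Real.log d + x) (Finset.sum_congr ?_ fun _ _ => rfl)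
  ext q
  rw [Nat.mem_divisors, mem_filter, mem_Icc, Nat.mul_dvd_mul_iff_left hd0]
  constructor
  · rintro ⟨h, _⟩
    exact ⟨⟨Nat.pos_of_dvd_of_pos h hk, (Nat.le_of_dvd hk h).trans hkK⟩, h⟩
  · rintro ⟨_, h⟩
    exact ⟨h, hk.ne'⟩

theorem glog (K g : ℕ) (hg : g ∈ Icc 1 K) :
    (g : ℝ) * Real.log g = ∑ e ∈ Icc 1 K, ∑ q ∈ Icc 1 K,
      if e * q ∣ g then (Nat.totient e : ℝ) * vonMangoldt q * q else 0 := by
  rw [mem_Icc] at hg
  rw [sum_comm, ← vonMangoldt_sum, mul_sum]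
  have h0 : g.divisors = (Icc 1 K).filter (fun q => q ∣ g) := by
    ext q
    rw [Nat.mem_divisors, mem_filter, mem_Icc]
    constructor
    · rintro ⟨h, _⟩
      exact ⟨⟨Nat.pos_of_dvd_of_pos h hg.1, (Nat.le_of_dvd hg.1 h).trans hg.2⟩, h⟩
    · rintro ⟨_, h⟩
      exact ⟨h, by omega⟩
  rw [h0, sum_filter]
  refine sum_congr rfl fun q hq => ?_
  rw [mem_Icc] at hq
  by_cases hqg : q ∣ g
  · rw [if_pos hqg]
    obtain ⟨k, rfl⟩ := hqg
    have hq0 : 0 < q := hq.1
    have hk : 0 < k := Nat.pos_of_ne_zero (by rintro rfl; simp at hg)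
    have hkK : k ≤ K := le_trans (Nat.le_mul_of_pos_left k hq0) hg.2
    have h1 : ∑ e ∈ Icc 1 K, (if e * q ∣ q * k then (Nat.totient e : ℝ) * vonMangoldt q * q else 0)
        = ∑ e ∈ k.divisors, (Nat.totient e : ℝ) * (vonMangoldt q * q) := by
      rw [← sum_filter]
      refine sum_congr ?_ fun _ _ => by ring
      ext e
      rw [Nat.mem_divisors, mem_filter, mem_Icc, mul_comm e q, Nat.mul_dvd_mul_iff_left hq0]
      constructor
      · rintro ⟨_, h⟩
        exact ⟨h, hk.ne'⟩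
      · rintro ⟨h, _⟩
        exact ⟨⟨Nat.pos_of_dvd_of_pos h hk, (Nat.le_of_dvd hk h).trans hkK⟩, h⟩
    rw [h1, ← sum_mul, ← Nat.cast_sum, Nat.sum_totient]
    push_cast
    ring
  · rw [if_neg hqg]
    symm
    apply sum_eq_zero
    intro e _
    rw [if_neg]
    intro h
    exact hqg (dvd_trans (Dvd.intro_left e rfl) h)

/-- the real quadratic form -/
theorem quad (K : ℕ) (c : ℕ → ℝ) (M : ℕ → ℝ)
    (hM : ∀ d, M d = ∑ a ∈ Icc 1 K, if d ∣ a then c a else 0) :
    ∑ a ∈ Icc 1 K, ∑ b ∈ Icc 1 K, c a * c b * ((a.gcd b : ℝ) * Real.log (a.lcm b)) =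
      ∑ d ∈ Icc 1 K, (Nat.totient d : ℝ) * (2 * M d * (M d * Real.log d +
        ∑ q ∈ Icc 1 K, vonMangoldt q * M (d * q))) -
      ∑ e ∈ Icc 1 K, ∑ q ∈ Icc 1 K, (Nat.totient e : ℝ) * vonMangoldt q * q * M (e * q) ^ 2 := by
  -- the two parts
  have h1 : ∀ a ∈ Icc 1 K, ∀ b ∈ Icc 1 K, c a * c b * ((a.gcd b : ℝ) * Real.log (a.lcm b)) =
      (∑ d ∈ Icc 1 K, (Nat.totient d : ℝ) * ((if d ∣ a then c a * Real.log a else 0) *
          (if d ∣ b then c b else 0) +
          (if d ∣ a then c a else 0) * (if d ∣ b then c b * Real.log b else 0))) -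
      ∑ e ∈ Icc 1 K, ∑ q ∈ Icc 1 K, (Nat.totient e : ℝ) * vonMangoldt q * q *
        ((if e * q ∣ a then c a else 0) * (if e * q ∣ b then c b else 0)) := by
    intro a ha b hb
    have ha' := mem_Icc.1 ha
    have hb' := mem_Icc.1 hb
    have hg0 : 0 < Nat.gcd a b := Nat.gcd_pos_of_pos_left _ (by omega)
    have hl0 : 0 < Nat.lcm a b := Nat.lcm_pos (by omega) (by omega)
    have hlog : Real.log (a.lcm b) = Real.log a + Real.log b - Real.log (a.gcd b) := by
      have : (a.gcd b : ℝ) * (a.lcm b : ℝ) = a * b := by exact_mod_cast Nat.gcd_mul_lcm a b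
      have h2 := congrArg Real.log this
      rw [Real.log_mul (by positivity) (by positivity), Real.log_mul
        (by have := ha'.1; positivity) (by have := hb'.1; positivity)] at h2
      linarith
    have hgm : Nat.gcd a b ∈ Icc 1 K := mem_Icc.2 ⟨hg0,
      le_trans (Nat.le_of_dvd (by omega) (Nat.gcd_dvd_left a b)) ha'.2⟩
    have e1 : ∑ d ∈ Icc 1 K, (Nat.totient d : ℝ) * ((if d ∣ a then c a * Real.log a else 0) *
          (if d ∣ b then c b else 0) +
          (if d ∣ a then c a else 0) * (if d ∣ b then c b * Real.log b else 0)) =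
        c a * c b * (Real.log a + Real.log b) * (a.gcd b : ℝ) := by
      rw [gcd_sum K a b ha, mul_sum]
      refine sum_congr rfl fun d _ => ?_
      by_cases h3 : d ∣ a <;> by_cases h4 : d ∣ b <;> simp [h3, h4]
      ring
    have e2 : ∑ e ∈ Icc 1 K, ∑ q ∈ Icc 1 K, (Nat.totient e : ℝ) * vonMangoldt q * q *
        ((if e * q ∣ a then c a else 0) * (if e * q ∣ b then c b else 0)) =
        c a * c b * ((a.gcd b : ℝ) * Real.log (a.gcd b)) := by
      rw [glog K _ hgm, mul_sum]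
      refine sum_congr rfl fun e _ => ?_
      rw [mul_sum]
      refine sum_congr rfl fun q _ => ?_
      by_cases h3 : e * q ∣ a <;> by_cases h4 : e * q ∣ b <;>
        simp [h3, h4, Nat.dvd_gcd_iff]
      ring
    rw [e1, e2, hlog]
    ring
  rw [sum_congr rfl fun a ha => sum_congr rfl fun b hb => h1 a ha b hb]
  simp only [sum_sub_distrib]
  congr 1
  · -- first part
    have e3 : ∀ a ∈ Icc 1 K, ∑ b ∈ Icc 1 K, ∑ d ∈ Icc 1 K, (Nat.totient d : ℝ) *
        ((if d ∣ a then c a * Real.log a else 0) * (if d ∣ b then c b else 0) +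
          (if d ∣ a then c a else 0) * (if d ∣ b then c b * Real.log b else 0)) =
        ∑ d ∈ Icc 1 K, (Nat.totient d : ℝ) * ((if d ∣ a then c a * Real.log a else 0) * M d +
          (if d ∣ a then c a else 0) * ∑ b ∈ Icc 1 K, if d ∣ b then c b * Real.log b else 0) := by
      intro a _
      rw [sum_comm]
      refine sum_congr rfl fun d _ => ?_
      rw [← mul_sum, sum_add_distrib, ← mul_sum, ← mul_sum, ← hM]
    rw [sum_congr rfl e3, sum_comm]
    refine sum_congr rfl fun d hd => ?_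
    rw [← mul_sum, sum_add_distrib, ← sum_mul, ← sum_mul, ← hM]
    have e4 : ∑ b ∈ Icc 1 K, (if d ∣ b then c b * Real.log b else 0) =
        M d * Real.log d + ∑ q ∈ Icc 1 K, vonMangoldt q * M (d * q) := by
      have e5 : ∀ b ∈ Icc 1 K, (if d ∣ b then c b * Real.log b else 0) =
          (if d ∣ b then c b else 0) * Real.log d +
          ∑ q ∈ Icc 1 K, vonMangoldt q * (if d * q ∣ b then c b else 0) := by
        intro b hb
        by_cases h : d ∣ b
        · rw [if_pos h, if_pos h, log_sum K d b hd hb h, mul_add, mul_sum]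
          congr 1
          refine sum_congr rfl fun q _ => ?_
          by_cases h2 : d * q ∣ b <;> simp [h2]
          ring
        · rw [if_neg h, if_neg h, sum_eq_zero]
          · ring
          · intro q _
            rw [if_neg (fun h2 => h (dvd_trans (Dvd.intro q rfl) h2)), mul_zero]
      rw [sum_congr rfl e5, sum_add_distrib, ← sum_mul, ← hM, sum_comm]
      congr 1
      refine sum_congr rfl fun q _ => ?_
      rw [← mul_sum, ← hM]
    rw [e4]
    ring
  · -- second part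
    have e3 : ∀ a ∈ Icc 1 K, ∑ b ∈ Icc 1 K, ∑ e ∈ Icc 1 K, ∑ q ∈ Icc 1 K,
        (Nat.totient e : ℝ) * vonMangoldt q * q *
        ((if e * q ∣ a then c a else 0) * (if e * q ∣ b then c b else 0)) =
        ∑ e ∈ Icc 1 K, ∑ q ∈ Icc 1 K, (Nat.totient e : ℝ) * vonMangoldt q * q *
        ((if e * q ∣ a then c a else 0) * M (e * q)) := by
      intro a _
      rw [sum_comm]
      refine sum_congr rfl fun e _ => ?_
      rw [sum_comm]
      refine sum_congr rfl fun q _ => ?_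
      rw [← mul_sum, ← mul_sum, ← hM]
    rw [sum_congr rfl e3, sum_comm]
    refine sum_congr rfl fun e _ => ?_
    rw [sum_comm]
    refine sum_congr rfl fun q _ => ?_
    rw [← mul_sum, ← sum_mul, ← hM]
    ring

end Pool.Agent.T6.H1.OV.ModE

namespace Pool.Agent.T6.H1.OV

open ModE ArithmeticFunction

theorem e (hP : StmtP) : StmtE := by
  classical
  intro K m
  obtain ⟨c, hc⟩ := exists_c K m
  set M : ℕ → ℝ := fun d => ∑ a ∈ Icc 1 K, if d ∣ a then c a else 0 with hMdef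
  have hM : ∀ d, M d = ∑ a ∈ Icc 1 K, if d ∣ a then c a else 0 := fun d => rfl
  have hMm : ∀ d ∈ Icc 1 K, m d = M d := fun d hd => hc d hd
  have hM0 : ∀ d, K < d → M d = 0 := by
    intro d hd
    rw [hM]
    apply sum_eq_zero
    intro a ha
    rw [mem_Icc] at ha
    rw [if_neg]
    intro h
    have := Nat.le_of_dvd (by omega) h
    omega
  -- membership
  have hmem : ∀ a ∈ Icc 1 K, nthRootsFinset a (1 : ℂ) ⊆ Om K := by
    intro a ha
    exact subset_biUnion_of_mem (fun a => nthRootsFinset a (1 : ℂ)) ha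
  have hiff : ∀ a ∈ Icc 1 K, ∀ ζ : ℂ, ζ ∈ nthRootsFinset a (1 : ℂ) ↔ orderOf ζ ∣ a := by
    intro a ha ζ
    rw [mem_Icc] at ha
    rw [mem_nthRootsFinset (by omega), orderOf_dvd_iff_pow_eq_one]
  have hord : ∀ ζ ∈ Om K, m (orderOf ζ) = ∑ a ∈ Icc 1 K,
      if ζ ∈ nthRootsFinset a (1 : ℂ) then c a else 0 := by
    intro ζ hζ
    unfold Om at hζ
    rw [mem_biUnion] at hζ
    obtain ⟨a, ha, hζa⟩ := hζ
    have h1 := (hiff a ha ζ).1 hζa
    have ha' := mem_Icc.1 ha
    have h2 : orderOf ζ ∈ Icc 1 K := mem_Icc.2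
      ⟨Nat.pos_of_dvd_of_pos h1 (by omega), (Nat.le_of_dvd (by omega) h1).trans ha'.2⟩
    rw [hc _ h2]
    refine sum_congr rfl fun b hb => ?_
    by_cases h3 : orderOf ζ ∣ b
    · rw [if_pos h3, if_pos ((hiff b hb ζ).2 h3)]
    · rw [if_neg h3, if_neg (fun h => h3 ((hiff b hb ζ).1 h))]
  -- left-hand side
  have hL : ∑ ζ ∈ Om K, ∑ ξ ∈ Om K, m (orderOf ζ) * m (orderOf ξ) * Real.log ‖ζ - ξ‖ =
      ∑ a ∈ Icc 1 K, ∑ b ∈ Icc 1 K, c a * c b * ((a.gcd b : ℝ) * Real.log (a.lcm b)) := by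
    have s1 : ∀ ζ ∈ Om K, ∑ ξ ∈ Om K, m (orderOf ζ) * m (orderOf ξ) * Real.log ‖ζ - ξ‖ =
        ∑ a ∈ Icc 1 K, (if ζ ∈ nthRootsFinset a (1 : ℂ) then c a else 0) *
          ∑ b ∈ Icc 1 K, c b * ∑ ξ ∈ nthRootsFinset b (1 : ℂ), Real.log ‖ζ - ξ‖ := by
      intro ζ hζ
      rw [← sum_mul, ← hord ζ hζ, mul_sum]
      have s2 : ∀ b ∈ Icc 1 K, m (orderOf ζ) * (c b * ∑ ξ ∈ nthRootsFinset b (1 : ℂ),
          Real.log ‖ζ - ξ‖) = ∑ ξ ∈ Om K, m (orderOf ζ) *
          (if ξ ∈ nthRootsFinset b (1 : ℂ) then c b else 0) * Real.log ‖ζ - ξ‖ := by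
        intro b hb
        have : ∑ ξ ∈ Om K, m (orderOf ζ) *
          (if ξ ∈ nthRootsFinset b (1 : ℂ) then c b else 0) * Real.log ‖ζ - ξ‖ =
          ∑ ξ ∈ Om K, if ξ ∈ nthRootsFinset b (1 : ℂ) then m (orderOf ζ) * c b *
            Real.log ‖ζ - ξ‖ else 0 := by
          refine sum_congr rfl fun ξ _ => ?_
          by_cases h : ξ ∈ nthRootsFinset b (1 : ℂ) <;> simp [h]
        rw [this, ← sum_filter, filter_mem_eq_inter, inter_eq_right.2 (hmem b hb), ← mul_sum]
        ring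
      rw [sum_congr rfl s2, sum_comm]
      refine sum_congr rfl fun ξ hξ => ?_
      rw [hord ξ hξ, mul_sum, sum_mul]
    rw [sum_congr rfl s1, sum_comm]
    refine sum_congr rfl fun a ha => ?_
    have s3 : ∑ ζ ∈ Om K, (if ζ ∈ nthRootsFinset a (1 : ℂ) then c a else 0) *
          ∑ b ∈ Icc 1 K, c b * ∑ ξ ∈ nthRootsFinset b (1 : ℂ), Real.log ‖ζ - ξ‖ =
        ∑ ζ ∈ nthRootsFinset a (1 : ℂ), ∑ b ∈ Icc 1 K, c a * (c b *
          ∑ ξ ∈ nthRootsFinset b (1 : ℂ), Real.log ‖ζ - ξ‖) := by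
      have : ∀ ζ ∈ Om K, (if ζ ∈ nthRootsFinset a (1 : ℂ) then c a else 0) *
          ∑ b ∈ Icc 1 K, c b * ∑ ξ ∈ nthRootsFinset b (1 : ℂ), Real.log ‖ζ - ξ‖ =
          if ζ ∈ nthRootsFinset a (1 : ℂ) then ∑ b ∈ Icc 1 K, c a * (c b *
          ∑ ξ ∈ nthRootsFinset b (1 : ℂ), Real.log ‖ζ - ξ‖) else 0 := by
        intro ζ _
        by_cases h : ζ ∈ nthRootsFinset a (1 : ℂ)
        · rw [if_pos h, if_pos h, mul_sum]
        · rw [if_neg h, if_neg h, zero_mul]
      rw [sum_congr rfl this, ← sum_filter, filter_mem_eq_inter, inter_eq_right.2 (hmem a ha)]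
    rw [s3, sum_comm]
    refine sum_congr rfl fun b hb => ?_
    rw [← mul_sum, ← mul_sum, hP a b (by have := (mem_Icc.1 ha).1; omega)
      (by have := (mem_Icc.1 hb).1; omega)]
    ring
  rw [hL, quad K c M hM]
  -- right-hand side
  have hA : ∀ e' ∈ Icc 1 K, ∀ f : ℕ → ℝ, ∑ q ∈ Icc 1 (K / e'), f q =
      ∑ q ∈ Icc 1 K, if e' * q ≤ K then f q else 0 := by
    intro e' he f
    rw [mem_Icc] at he
    rw [← sum_filter]
    refine sum_congr ?_ fun _ _ => rfl
    ext q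
    rw [mem_Icc, mem_filter, mem_Icc, Nat.le_div_iff_mul_le (by omega), mul_comm q e']
    constructor
    · rintro ⟨h1, h2⟩
      exact ⟨⟨h1, le_trans (Nat.le_mul_of_pos_left q (by omega)) h2⟩, h2⟩
    · rintro ⟨⟨h1, _⟩, h2⟩
      exact ⟨h1, h2⟩
  have hEE : EE K m = ∑ e' ∈ Icc 1 K, ((Nat.totient e' : ℝ) * M e' ^ 2 * A (K / e') +
      ∑ q ∈ Icc 1 K, ((Nat.totient e' : ℝ) * vonMangoldt q * q * M (e' * q) ^ 2 -
        2 * (Nat.totient e' : ℝ) * vonMangoldt q * M e' * M (e' * q))) := by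
    unfold EE
    refine sum_congr rfl fun e' he => ?_
    have he' := mem_Icc.1 he
    unfold A
    rw [hA e' he, hA e' he, mul_sum, ← sum_add_distrib]
    refine sum_congr rfl fun q hq => ?_
    have hq' := mem_Icc.1 hq
    by_cases h : e' * q ≤ K
    · rw [if_pos h, if_pos h, hMm e' he, hMm (e' * q) (mem_Icc.2 ⟨Nat.mul_pos (by omega)
        (by omega), h⟩)]
      have : (q : ℝ) ≠ 0 := by
        have := hq'.1
        positivity
      field_simp
      ring
    · rw [if_neg h, if_neg h, hM0 (e' * q) (by omega)]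
      ring
  rw [hEE, ← sum_sub_distrib, ← sum_sub_distrib]
  refine sum_congr rfl fun d hd => ?_
  rw [hMm d hd, sum_sub_distrib]
  have e6 : ∑ q ∈ Icc 1 K, 2 * (Nat.totient d : ℝ) * vonMangoldt q * M d * M (d * q) =
      2 * (Nat.totient d : ℝ) * M d * ∑ q ∈ Icc 1 K, vonMangoldt q * M (d * q) := by
    rw [mul_sum]
    exact sum_congr rfl fun q _ => by ring
  rw [e6]
  ring

end Pool.Agent.T6.H1.OV
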