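import Pool.Agent.T6.H1.OV.Defs

/-!
# OV, module F: choice of the parameters
-/

set_option autoImplicit false

open scoped BigOperators
open Finset Polynomial

namespace Pool.Agent.T6.H1.OV

/-- the choice of the parameters -/
theorem params (C : ℝ) (hC : 1 ≤ C) : ∃ ℓ₀ : ℝ, ∀ N : ℕ, ℓ₀ ≤ Real.log N → ∃ κ K J : ℕ,
    1 ≤ J ∧ 2 ^ (2 ^ J) ≤ K ∧ K ≤ κ ∧ κ * K * J ≤ N ∧
    C * (κ * K * J * Real.log N + κ ^ 2 * Real.log K * (Real.log (N / (κ * K)) + 1) +
      κ ^ 2 * J * Real.log K + J ^ 2 * K ^ 2 * Real.log K ^ 2) ≤ N ∧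
    1 / 2 * Real.sqrt (N * Real.log (Real.log N) / (40 * C * Real.log N)) ≤ κ * J := by
  -- the constant `S`
  obtain ⟨S, hS⟩ : ∃ S : ℝ, S = Real.sqrt (20 * C) := ⟨_, rfl⟩
  have hS2 : S ^ 2 = 20 * C := by
    rw [hS, Real.sq_sqrt (by linarith)]
  have hS1 : 1 ≤ S := by
    rw [hS]
    exact Real.one_le_sqrt.2 (by linarith)
  have hS0 : 0 < S := by linarith
  -- the growth of the exponential
  have hgrow : ∀ᶠ x : ℝ in Filter.atTop, 4 * S * x ^ 3 * Real.exp (0.35 * x) ≤ Real.exp (x / 2) := by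
    have h1 : Filter.Tendsto (fun x : ℝ => Real.exp x / x ^ 3) Filter.atTop Filter.atTop :=
      Real.tendsto_exp_div_pow_atTop 3
    have h2 : Filter.Tendsto (fun x : ℝ => 0.15 * x) Filter.atTop Filter.atTop :=
      Filter.tendsto_id.const_mul_atTop (by norm_num)
    have h3 := (h1.comp h2).eventually_ge_atTop (4 * S / 0.15 ^ 3)
    filter_upwards [h3, Filter.eventually_gt_atTop 0] with x hx hx0
    simp only [Function.comp] at hx
    rw [le_div_iff₀ (by positivity)] at hx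
    have h4 : 4 * S / 0.15 ^ 3 * (0.15 * x) ^ 3 = 4 * S * x ^ 3 := by
      rw [mul_pow]
      field_simp
    rw [h4] at hx
    calc 4 * S * x ^ 3 * Real.exp (0.35 * x) ≤ Real.exp (0.15 * x) * Real.exp (0.35 * x) :=
          mul_le_mul_of_nonneg_right hx (Real.exp_pos _).le
      _ = Real.exp (x / 2) := by
          rw [← Real.exp_add]
          congr 1
          ring
  obtain ⟨x₀, hx₀⟩ := Filter.eventually_atTop.1 hgrow
  -- the threshold
  refine ⟨max (max x₀ 16) (Real.exp (2 * (Real.log (160 * C) + 10))), fun N hN => ?_⟩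
  obtain ⟨ℓ, hℓ⟩ : ∃ ℓ : ℝ, ℓ = Real.log N := ⟨_, rfl⟩
  rw [← hℓ] at hN ⊢
  have hx : x₀ ≤ ℓ := (le_max_left _ _).trans ((le_max_left _ _).trans hN)
  have hℓ16 : 16 ≤ ℓ := (le_max_right _ _).trans ((le_max_left _ _).trans hN)
  have hℓbig : Real.exp (2 * (Real.log (160 * C) + 10)) ≤ ℓ := (le_max_right _ _).trans hN
  have hℓ0 : 0 < ℓ := by linarith
  have hlogℓ : 2 * (Real.log (160 * C) + 10) ≤ Real.log ℓ := (Real.le_log_iff_exp_le hℓ0).2 hℓbig
  have hN0 : (0 : ℝ) < N := by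
    rcases Nat.eq_zero_or_pos N with h | h
    · exfalso
      rw [h] at hℓ
      simp at hℓ
      linarith
    · exact_mod_cast h
  have hNexp : (N : ℝ) = Real.exp ℓ := by rw [hℓ, Real.exp_log hN0]
  have hgr := hx₀ ℓ hx
  -- the number of scales
  obtain ⟨J, hJ⟩ : ∃ J : ℕ, J = Nat.log 2 ⌊ℓ / 2⌋₊ := ⟨_, rfl⟩
  have hfl8 : 8 ≤ ⌊ℓ / 2⌋₊ := Nat.le_floor (by norm_num; linarith)
  have hJ1 : 3 ≤ J := by
    rw [hJ]
    exact (Nat.le_log_iff_pow_le (by norm_num) (by omega)).2 (by omega)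
  have hJup : (2 : ℝ) ^ J ≤ ℓ / 2 := by
    have h1 : 2 ^ J ≤ ⌊ℓ / 2⌋₊ := by
      rw [hJ]
      exact Nat.pow_log_le_self 2 (by omega)
    calc (2 : ℝ) ^ J ≤ (⌊ℓ / 2⌋₊ : ℝ) := by exact_mod_cast h1
      _ ≤ ℓ / 2 := Nat.floor_le (by linarith)
  have hJlow : ℓ / 4 < (2 : ℝ) ^ J := by
    have h1 : ⌊ℓ / 2⌋₊ < 2 ^ (J + 1) := by
      rw [hJ]
      exact Nat.lt_pow_succ_log_self (by norm_num) _
    have h2 : ℓ / 2 < ⌊ℓ / 2⌋₊ + 1 := Nat.lt_floor_add_one _
    have h3 : (⌊ℓ / 2⌋₊ : ℝ) + 1 ≤ 2 ^ (J + 1) := by exact_mod_cast h1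
    rw [pow_succ] at h3
    linarith
  have hJ0 : (0 : ℝ) < J := by exact_mod_cast (by omega : 0 < J)
  have hJ1R : (3 : ℝ) ≤ J := by exact_mod_cast hJ1
  have hJℓ : (J : ℝ) ≤ ℓ := by
    have h1 : (J : ℝ) ≤ 2 ^ J := by exact_mod_cast (Nat.lt_two_pow_self (n := J)).le
    linarith
  have hlog2 : Real.log 2 < 0.6931471808 := Real.log_two_lt_d9
  have hlog2' : 0.6931471803 < Real.log 2 := Real.log_two_gt_d9
  have hlogup : Real.log ℓ ≤ (J + 2) * Real.log 2 := by
    have h1 : ℓ ≤ 2 ^ (J + 2) := by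
      rw [pow_add]
      linarith
    calc Real.log ℓ ≤ Real.log (2 ^ (J + 2)) := Real.log_le_log hℓ0 h1
      _ = (J + 2) * Real.log 2 := by
          rw [Real.log_pow]
          push_cast
          ring
  have hlogJ : Real.log ℓ / 2 ≤ J := by
    have h2 : 0 ≤ Real.log (160 * C) := Real.log_nonneg (by linarith)
    nlinarith
  -- the parameter `κ`
  obtain ⟨x, hxdef⟩ : ∃ x : ℝ, x = Real.sqrt (N / (20 * C * J * ℓ)) := ⟨_, rfl⟩
  have hden : 0 < 20 * C * J * ℓ := by positivity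
  have hx2 : x ^ 2 = N / (20 * C * J * ℓ) := by
    rw [hxdef, Real.sq_sqrt (by positivity)]
  have hx0 : 0 ≤ x := by
    rw [hxdef]
    exact Real.sqrt_nonneg _
  have hxlow : Real.exp (ℓ / 2) / (S * ℓ) ≤ x := by
    rw [hxdef]
    apply Real.le_sqrt_of_sq_le
    rw [div_pow, ← Real.exp_nat_mul, mul_pow, hS2, hNexp]
    have e1 : ((2 : ℕ) : ℝ) * (ℓ / 2) = ℓ := by
      push_cast
      ring
    rw [e1]
    apply div_le_div_of_nonneg_left (Real.exp_pos _).le hden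
    nlinarith [mul_le_mul_of_nonneg_left hJℓ (by positivity : 0 ≤ 20 * C * ℓ)]
  have hx4 : 4 * ℓ ^ 2 * Real.exp (0.35 * ℓ) ≤ x := by
    refine le_trans ?_ hxlow
    rw [le_div_iff₀ (by positivity)]
    calc 4 * ℓ ^ 2 * Real.exp (0.35 * ℓ) * (S * ℓ) = 4 * S * ℓ ^ 3 * Real.exp (0.35 * ℓ) := by ring
      _ ≤ _ := hgr
  have hexp1 : 2 ≤ Real.exp (0.35 * ℓ) := by
    have := Real.add_one_le_exp (0.35 * ℓ)
    nlinarith
  obtain ⟨κ, hκ⟩ : ∃ κ : ℕ, κ = ⌊x⌋₊ := ⟨_, rfl⟩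
  have hκup : (κ : ℝ) ≤ x := by
    rw [hκ]
    exact Nat.floor_le hx0
  have hx2' : 2 ≤ x := by
    refine le_trans ?_ hx4
    nlinarith
  have hκlow : x / 2 ≤ κ := by
    have := Nat.lt_floor_add_one x
    rw [← hκ] at this
    linarith
  have hκ0 : (0 : ℝ) < κ := by linarith
  obtain ⟨K, hKdef⟩ : ∃ K : ℕ, K = ⌊(κ : ℝ) / ℓ ^ 2⌋₊ := ⟨_, rfl⟩
  have hKup : (K : ℝ) ≤ κ / ℓ ^ 2 := by
    rw [hKdef]
    exact Nat.floor_le (by positivity)
  have hy : 2 * Real.exp (0.35 * ℓ) ≤ κ / ℓ ^ 2 := by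
    rw [le_div_iff₀ (by positivity)]
    linarith
  have hKlow : (κ : ℝ) / ℓ ^ 2 / 2 ≤ K := by
    have := Nat.lt_floor_add_one ((κ : ℝ) / ℓ ^ 2)
    rw [← hKdef] at this
    linarith
  have hKexp : Real.exp (0.35 * ℓ) ≤ K := by linarith
  have hK0 : (0 : ℝ) < K := by linarith [Real.exp_pos (0.35 * ℓ)]
  have hK1 : (1 : ℝ) ≤ K := by linarith
  have hKκ : (K : ℝ) ≤ κ := by
    refine hKup.trans ?_
    rw [div_le_iff₀ (by positivity)]
    exact le_mul_of_one_le_right hκ0.le (by nlinarith)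
  have hκ2 : (κ : ℝ) ^ 2 * (20 * C * J * ℓ) ≤ N := by
    have h1 : (κ : ℝ) ^ 2 ≤ N / (20 * C * J * ℓ) := by
      rw [← hx2]
      exact pow_le_pow_left₀ hκ0.le hκup 2
    exact (le_div_iff₀ hden).1 h1
  have hκ2' : (N : ℝ) ≤ κ ^ 2 * (80 * C * J * ℓ) := by
    have h1 : x ^ 2 / 4 ≤ κ ^ 2 := by
      have := pow_le_pow_left₀ (by linarith) hκlow 2
      linarith [this, div_pow x 2 2]
    rw [hx2, div_div, div_le_iff₀ (by positivity)] at h1
    refine h1.trans (le_of_eq ?_)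
    ring
  have hlogK0 : 0 ≤ Real.log K := Real.log_nonneg hK1
  have hKN : (K : ℝ) ≤ N := by
    have h1 : (κ : ℝ) ^ 2 ≤ N := by
      refine le_trans ?_ hκ2
      have : 1 ≤ 20 * C * J * ℓ := by
        have h2 : 1 ≤ C * J * ℓ := by
          have h3 : 1 ≤ C * J := by nlinarith
          nlinarith
        linarith
      nlinarith [sq_nonneg (κ : ℝ)]
    have h2 : (1 : ℝ) ≤ κ := hK1.trans hKκ
    nlinarith
  have hlogKℓ : Real.log K ≤ ℓ := by
    rw [hℓ]
    exact Real.log_le_log hK0 hKN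
  refine ⟨κ, K, J, by omega, ?_, by exact_mod_cast hKκ, ?_, ?_, ?_⟩
  · -- `2 ^ (2 ^ J) ≤ K`
    have h1 : ((2 ^ (2 ^ J) : ℕ) : ℝ) ≤ K := by
      refine le_trans ?_ hKexp
      rw [Nat.cast_pow, Nat.cast_ofNat, ← Real.rpow_natCast, Real.rpow_def_of_pos (by norm_num)]
      apply Real.exp_le_exp.2
      rw [Nat.cast_pow, Nat.cast_ofNat]
      nlinarith
    exact_mod_cast h1
  · -- `κ K J ≤ N`
    have h1 : (κ : ℝ) * K * J ≤ N := by
      have h2 : (κ : ℝ) * K * J ≤ κ ^ 2 * (20 * C * J * ℓ) := by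
        have h3 : (κ : ℝ) * K ≤ κ ^ 2 := by nlinarith
        calc (κ : ℝ) * K * J ≤ κ ^ 2 * J := mul_le_mul_of_nonneg_right h3 hJ0.le
          _ ≤ κ ^ 2 * (20 * C * J * ℓ) := by
              apply mul_le_mul_of_nonneg_left _ (by positivity)
              have : 1 ≤ 20 * C * ℓ := by nlinarith
              nlinarith
      linarith
    exact_mod_cast h1
  · -- the main inequality
    have hKκℓ : (K : ℝ) * ℓ ^ 2 ≤ κ := by
      rw [← le_div_iff₀ (by positivity)]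
      exact hKup
    have hB : C * κ ^ 2 * J * ℓ ≤ N / 20 := by linarith
    -- T1
    have T1 : C * (κ * K * J * ℓ) ≤ N / 20 := by
      refine le_trans ?_ hB
      have h3 : (κ : ℝ) * K ≤ κ ^ 2 := by nlinarith
      calc C * (κ * K * J * ℓ) = (C * J * ℓ) * (κ * K) := by ring
        _ ≤ (C * J * ℓ) * κ ^ 2 := mul_le_mul_of_nonneg_left h3 (by positivity)
        _ = _ := by ring
    -- T3
    have T3 : C * (κ ^ 2 * J * Real.log K) ≤ N / 20 := by
      refine le_trans ?_ hB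
      calc C * (κ ^ 2 * J * Real.log K) = (C * κ ^ 2 * J) * Real.log K := by ring
        _ ≤ (C * κ ^ 2 * J) * ℓ := mul_le_mul_of_nonneg_left hlogKℓ (by positivity)
    -- T4
    have T4 : C * (J ^ 2 * K ^ 2 * Real.log K ^ 2) ≤ N / 20 := by
      refine le_trans ?_ hB
      have h5 : Real.log K ^ 2 ≤ ℓ ^ 2 := pow_le_pow_left₀ hlogK0 hlogKℓ 2
      have h6 : (K : ℝ) ^ 2 * ℓ ^ 2 ≤ κ ^ 2 := by
        have h7 : (K : ℝ) * ℓ ≤ κ := by nlinarith
        have := pow_le_pow_left₀ (by positivity) h7 2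
        rw [mul_pow] at this
        exact this
      calc C * (J ^ 2 * K ^ 2 * Real.log K ^ 2) = (C * J ^ 2 * K ^ 2) * Real.log K ^ 2 := by ring
        _ ≤ (C * J ^ 2 * K ^ 2) * ℓ ^ 2 := mul_le_mul_of_nonneg_left h5 (by positivity)
        _ = (C * J) * J * (K ^ 2 * ℓ ^ 2) := by ring
        _ ≤ (C * J) * J * κ ^ 2 := mul_le_mul_of_nonneg_left h6 (by positivity)
        _ ≤ (C * J) * ℓ * κ ^ 2 := by gcongr
        _ = _ := by ring
    -- T2
    have hL1 : Real.log (N / (κ * K)) + 1 ≤ 15 * J := by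
      have h1 : (N : ℝ) / (κ * K) ≤ 160 * C * ℓ ^ 4 := by
        rw [div_le_iff₀ (by positivity)]
        have h2 : (κ : ℝ) ≤ K * (2 * ℓ ^ 2) := by
          rw [div_div, div_le_iff₀ (by positivity)] at hKlow
          linarith
        calc (N : ℝ) ≤ κ ^ 2 * (80 * C * J * ℓ) := hκ2'
          _ = κ * (80 * C * J * ℓ) * κ := by ring
          _ ≤ κ * (80 * C * J * ℓ) * (K * (2 * ℓ ^ 2)) :=
              mul_le_mul_of_nonneg_left h2 (by positivity)
          _ ≤ κ * (80 * C * ℓ * ℓ) * (K * (2 * ℓ ^ 2)) := by gcongr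
          _ = 160 * C * ℓ ^ 4 * (κ * K) := by ring
      have h2 : Real.log (N / (κ * K)) ≤ Real.log (160 * C) + 4 * Real.log ℓ := by
        calc Real.log (N / (κ * K)) ≤ Real.log (160 * C * ℓ ^ 4) :=
              Real.log_le_log (by positivity) h1
          _ = Real.log (160 * C) + 4 * Real.log ℓ := by
              rw [Real.log_mul (by positivity) (by positivity), Real.log_pow]
              norm_num
      nlinarith
    have T2 : C * (κ ^ 2 * Real.log K * (Real.log (N / (κ * K)) + 1)) ≤ 3 * N / 4 := by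
      have h1 : C * (κ ^ 2 * Real.log K * (Real.log (N / (κ * K)) + 1)) ≤
          C * (κ ^ 2 * Real.log K * (15 * J)) := by
        apply mul_le_mul_of_nonneg_left _ (by positivity)
        exact mul_le_mul_of_nonneg_left hL1 (by positivity)
      have h2 : C * (κ ^ 2 * Real.log K * (15 * J)) = 15 * (C * (κ ^ 2 * J * Real.log K)) := by ring
      linarith
    have hsum : C * (κ * K * J * ℓ + κ ^ 2 * Real.log K * (Real.log (N / (κ * K)) + 1) +
        κ ^ 2 * J * Real.log K + J ^ 2 * K ^ 2 * Real.log K ^ 2) =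
        C * (κ * K * J * ℓ) + C * (κ ^ 2 * Real.log K * (Real.log (N / (κ * K)) + 1)) +
        C * (κ ^ 2 * J * Real.log K) + C * (J ^ 2 * K ^ 2 * Real.log K ^ 2) := by ring
    rw [hsum]
    linarith
  · -- the size of `κ J`
    have h1 : Real.sqrt (N * Real.log ℓ / (40 * C * ℓ)) ≤ x * J := by
      apply Real.sqrt_le_iff.2
      refine ⟨by positivity, ?_⟩
      rw [mul_pow, hx2]
      have e1 : (N : ℝ) / (20 * C * J * ℓ) * J ^ 2 = N * J / (20 * C * ℓ) := by
        field_simp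
      rw [e1, div_le_div_iff₀ (by positivity) (by positivity)]
      have h2 : (N : ℝ) * Real.log ℓ * (20 * C * ℓ) = (N * (20 * C * ℓ)) * Real.log ℓ := by ring
      have h3 : (N : ℝ) * J * (40 * C * ℓ) = (N * (20 * C * ℓ)) * (2 * J) := by ring
      rw [h2, h3]
      apply mul_le_mul_of_nonneg_left _ (by positivity)
      linarith
    calc 1 / 2 * Real.sqrt (N * Real.log ℓ / (40 * C * ℓ)) ≤ 1 / 2 * (x * J) :=
          mul_le_mul_of_nonneg_left h1 (by norm_num)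
      _ = x / 2 * J := by ring
      _ ≤ κ * J := mul_le_mul_of_nonneg_right hκlow hJ0.le

/-- comparison of `n` and `n + 1` -/
theorem compare (n : ℕ) (hn : 16 ≤ n) :
    (n : ℝ) * Real.log (Real.log n) / Real.log n ≤
      2 * (((n + 1 : ℕ) : ℝ) * Real.log (Real.log ((n + 1 : ℕ) : ℝ)) /
        Real.log ((n + 1 : ℕ) : ℝ)) := by
  have hn16 : (16 : ℝ) ≤ n := by exact_mod_cast hn
  have hn0 : (0 : ℝ) < n := by linarith
  have hN : (n : ℝ) ≤ ((n + 1 : ℕ) : ℝ) := by push_cast; linarith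
  have h1 : (1 : ℝ) < Real.log n := by
    rw [Real.lt_log_iff_exp_lt hn0]
    have := Real.exp_one_lt_d9
    linarith
  have h2 : Real.log n ≤ Real.log ((n + 1 : ℕ) : ℝ) := Real.log_le_log hn0 hN
  have h3 : Real.log ((n + 1 : ℕ) : ℝ) ≤ 2 * Real.log n := by
    have h4 : (((n + 1 : ℕ) : ℝ)) ≤ (n : ℝ) ^ 2 := by
      push_cast
      nlinarith
    calc Real.log ((n + 1 : ℕ) : ℝ) ≤ Real.log ((n : ℝ) ^ 2) :=
          Real.log_le_log (by positivity) h4
      _ = 2 * Real.log n := by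
          rw [Real.log_pow]
          norm_num
  have h5 : 0 ≤ Real.log (Real.log n) := Real.log_nonneg h1.le
  have h6 : Real.log (Real.log n) ≤ Real.log (Real.log ((n + 1 : ℕ) : ℝ)) :=
    Real.log_le_log (by linarith) h2
  have h7 : (0 : ℝ) < Real.log ((n + 1 : ℕ) : ℝ) := by linarith
  have h8 : 0 ≤ Real.log (Real.log ((n + 1 : ℕ) : ℝ)) := h5.trans h6
  rw [← mul_div_assoc, div_le_div_iff₀ (by linarith) h7]
  calc (n : ℝ) * Real.log (Real.log n) * Real.log ((n + 1 : ℕ) : ℝ) ≤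
        ((n + 1 : ℕ) : ℝ) * Real.log (Real.log ((n + 1 : ℕ) : ℝ)) * (2 * Real.log n) := by
        gcongr
    _ = 2 * (((n + 1 : ℕ) : ℝ) * Real.log (Real.log ((n + 1 : ℕ) : ℝ))) * Real.log n := by ring

theorem f (hG : StmtG) : StmtF := by
  obtain ⟨C₀, hC₀, hG⟩ := hG
  obtain ⟨C, hCdef⟩ : ∃ C : ℝ, C = max C₀ 1 := ⟨_, rfl⟩
  have hC1 : 1 ≤ C := by rw [hCdef]; exact le_max_right _ _
  have hCC : C₀ ≤ C := by rw [hCdef]; exact le_max_left _ _
  obtain ⟨ℓ₀, hpar⟩ := params C hC1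
  obtain ⟨n₀, hn₀⟩ : ∃ n₀ : ℕ, Real.exp ℓ₀ ≤ n₀ ∧ 16 ≤ n₀ := by
    refine ⟨max ⌈Real.exp ℓ₀⌉₊ 16, ?_, le_max_right _ _⟩
    exact (Nat.le_ceil _).trans (by exact_mod_cast le_max_left _ _)
  have hn₀0 : (0 : ℝ) < n₀ := by
    have : (16 : ℝ) ≤ n₀ := by exact_mod_cast hn₀.2
    linarith
  refine ⟨min (1 / Real.sqrt n₀) (1 / (2 * Real.sqrt (80 * C))), by positivity, fun n hn => ?_⟩
  by_cases hlarge : n₀ ≤ n
  · -- large `n`
    have hn16 : 16 ≤ n := hn₀.2.trans hlarge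
    have hN : ℓ₀ ≤ Real.log ((n + 1 : ℕ) : ℝ) := by
      rw [Real.le_log_iff_exp_le (by positivity)]
      refine hn₀.1.trans ?_
      exact_mod_cast (by omega : n₀ ≤ n + 1)
    obtain ⟨κ, K, J, hJ, hK, hKκ, hκKJ, hmain, hsize⟩ := hpar (n + 1) hN
    have hK1 : 1 ≤ K := le_trans Nat.one_le_two_pow hK
    have hκ1 : 1 ≤ κ := hK1.trans hKκ
    have hnn : 0 ≤ (κ * K * J * Real.log ((n + 1 : ℕ) : ℝ) + κ ^ 2 * Real.log K *
        (Real.log (((n + 1 : ℕ) : ℝ) / (κ * K)) + 1) +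
        κ ^ 2 * J * Real.log K + J ^ 2 * K ^ 2 * Real.log K ^ 2 : ℝ) := by
      have h1 : 0 ≤ Real.log (((n + 1 : ℕ) : ℝ) / (κ * K)) := by
        apply Real.log_nonneg
        have hκ0 : (0 : ℝ) < κ := by exact_mod_cast hκ1
        have hK0 : (0 : ℝ) < K := by exact_mod_cast hK1
        rw [le_div_iff₀ (by positivity), one_mul]
        have : κ * K ≤ n + 1 := le_trans (Nat.le_mul_of_pos_right _ hJ) hκKJ
        exact_mod_cast this
      have h2 : 0 ≤ Real.log ((n + 1 : ℕ) : ℝ) := Real.log_natCast_nonneg _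
      have h3 : 0 ≤ Real.log (K : ℝ) := Real.log_natCast_nonneg _
      positivity
    obtain ⟨p, hp0, hpN, hp1, hpd⟩ := hG (n + 1) κ K J hJ hK hKκ hκKJ
      (le_trans (mul_le_mul_of_nonneg_right hCC hnn) hmain)
    refine ⟨κ * J, p, hp0, by omega, hp1, hpd, ?_⟩
    have hcmp := compare n hn16
    have hn0 : (0 : ℝ) < n := by exact_mod_cast (by omega : 0 < n)
    have h80 : (0 : ℝ) < Real.sqrt (80 * C) := Real.sqrt_pos.2 (by linarith)
    push_cast at hsize hcmp ⊢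
    calc min (1 / Real.sqrt n₀) (1 / (2 * Real.sqrt (80 * C))) *
          Real.sqrt (n * Real.log (Real.log n) / Real.log n)
        ≤ 1 / (2 * Real.sqrt (80 * C)) *
          Real.sqrt (2 * (((n : ℝ) + 1) * Real.log (Real.log ((n : ℝ) + 1)) /
            Real.log ((n : ℝ) + 1))) := by
          gcongr
          exact min_le_right _ _
      _ = 1 / 2 * Real.sqrt (((n : ℝ) + 1) * Real.log (Real.log ((n : ℝ) + 1)) /
            (40 * C * Real.log ((n : ℝ) + 1))) := by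
          have e1 : ((n : ℝ) + 1) * Real.log (Real.log ((n : ℝ) + 1)) /
              (40 * C * Real.log ((n : ℝ) + 1)) =
              (2 * (((n : ℝ) + 1) * Real.log (Real.log ((n : ℝ) + 1)) /
                Real.log ((n : ℝ) + 1))) / (80 * C) := by
            have hl : 0 < Real.log ((n : ℝ) + 1) := Real.log_pos (by linarith)
            field_simp
            ring
          rw [e1, Real.sqrt_div' _ (by linarith)]
          field_simp
      _ ≤ κ * J := hsize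
  · -- small `n`
    rw [not_le] at hlarge
    refine ⟨1, X - 1, ?_, ?_, ?_, by rw [pow_one], ?_⟩
    · exact X_sub_C_ne_zero (1 : ℤ)
    · have : (X - 1 : ℤ[X]).natDegree = 1 := natDegree_X_sub_C (1 : ℤ)
      omega
    · intro j
      rw [coeff_sub, coeff_X, coeff_one]
      split_ifs <;> simp
    · have hn0 : (0 : ℝ) < n := by exact_mod_cast (by omega : 0 < n)
      have h3 : (3 : ℝ) ≤ n := by exact_mod_cast hn
      have h1 : (1 : ℝ) < Real.log n := by
        rw [Real.lt_log_iff_exp_lt hn0]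
        have := Real.exp_one_lt_d9
        linarith
      have h2 : Real.log (Real.log n) ≤ Real.log n := by
        have := Real.log_le_sub_one_of_pos (show 0 < Real.log n by linarith)
        linarith
      have h4 : (n : ℝ) * Real.log (Real.log n) / Real.log n ≤ n₀ := by
        rw [div_le_iff₀ (by linarith)]
        have h5 : (n : ℝ) ≤ n₀ := by exact_mod_cast hlarge.le
        calc (n : ℝ) * Real.log (Real.log n) ≤ n * Real.log n := by gcongr
          _ ≤ n₀ * Real.log n := by gcongr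
      calc min (1 / Real.sqrt n₀) (1 / (2 * Real.sqrt (80 * C))) *
            Real.sqrt (n * Real.log (Real.log n) / Real.log n)
          ≤ 1 / Real.sqrt n₀ * Real.sqrt n₀ := by
            gcongr
            exact min_le_left _ _
        _ = ((1 : ℕ) : ℝ) := by
            rw [one_div, inv_mul_cancel₀ (Real.sqrt_pos.2 hn₀0).ne']
            norm_num

end Pool.Agent.T6.H1.OV
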