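import Pool.Agent.T6.H1.OV.Defs

/-!
# OV, module G: the existence theorem with parameters
-/

set_option autoImplicit false

open scoped BigOperators
open Finset Polynomial

namespace Pool.Agent.T6.H1.OV

theorem log_choose_le (N j : ℕ) (hj : 1 ≤ j) (hN : j ≤ N) :
    Real.log (N.choose j) ≤ j * (1 + Real.log (N / j)) := by
  have hj0 : (0 : ℝ) < j := by exact_mod_cast hj
  have hN0 : (0 : ℝ) < N := by exact_mod_cast (lt_of_lt_of_le hj hN)
  have h1 : (N.choose j : ℝ) ≤ (N : ℝ) ^ j / j.factorial := Nat.choose_le_pow_div j N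
  have h2 : (j : ℝ) ^ j / j.factorial ≤ Real.exp j := Real.pow_div_factorial_le_exp (j : ℝ) hj0.le j
  have h3 : (N.choose j : ℝ) ≤ ((N : ℝ) / j) ^ j * Real.exp j := by
    calc (N.choose j : ℝ) ≤ (N : ℝ) ^ j / j.factorial := h1
      _ = ((N : ℝ) / j) ^ j * ((j : ℝ) ^ j / j.factorial) := by
          rw [div_pow]
          field_simp
      _ ≤ _ := mul_le_mul_of_nonneg_left h2 (by positivity)
  have h4 : (0 : ℝ) < N.choose j := by exact_mod_cast Nat.choose_pos hN
  calc Real.log (N.choose j) ≤ Real.log (((N : ℝ) / j) ^ j * Real.exp j) :=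
        Real.log_le_log h4 h3
    _ = j * (1 + Real.log (N / j)) := by
        rw [Real.log_mul (by positivity) (Real.exp_pos _).ne', Real.log_pow, Real.log_exp]
        ring

theorem sum_log_choose_le (N m : ℕ) (hN : m ≤ N) (hm : 1 ≤ m) :
    ∑ j ∈ range m, Real.log (N.choose j) ≤ (m : ℝ) ^ 2 * (Real.log (N / m) / 2 + 1) := by
  have hm0 : (0 : ℝ) < m := by exact_mod_cast hm
  have hN0 : (0 : ℝ) < N := by exact_mod_cast (lt_of_lt_of_le hm hN)
  have hlog : 0 ≤ Real.log (N / m) := by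
    apply Real.log_nonneg
    rw [le_div_iff₀ hm0, one_mul]
    exact_mod_cast hN
  have h1 : ∀ j ∈ range m, Real.log (N.choose j) ≤ j * Real.log (N / m) + m := by
    intro j hj
    rw [mem_range] at hj
    rcases Nat.eq_zero_or_pos j with rfl | hj1
    · simp
    · have hj0 : (0 : ℝ) < j := by exact_mod_cast hj1
      refine (log_choose_le N j hj1 (by omega)).trans ?_
      have h2 : Real.log (N / j) = Real.log (N / m) + Real.log (m / j) := by
        rw [← Real.log_mul (by positivity) (by positivity)]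
        congr 1
        field_simp
      have h3 : Real.log ((m : ℝ) / j) ≤ m / j - 1 := Real.log_le_sub_one_of_pos (by positivity)
      have h4 : (j : ℝ) * Real.log ((m : ℝ) / j) ≤ m - j := by
        calc (j : ℝ) * Real.log ((m : ℝ) / j) ≤ j * (m / j - 1) :=
              mul_le_mul_of_nonneg_left h3 hj0.le
          _ = m - j := by field_simp
      rw [h2]
      nlinarith
  have h5 : ∑ j ∈ range m, ((j : ℝ) * Real.log (N / m) + m) ≤
      (m : ℝ) ^ 2 * (Real.log (N / m) / 2 + 1) := by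
    rw [sum_add_distrib, ← sum_mul, sum_const, card_range, nsmul_eq_mul]
    have h6 : (∑ j ∈ range m, (j : ℝ)) ≤ (m : ℝ) ^ 2 / 2 := by
      have h7 : (∑ j ∈ range m, (j : ℝ)) * 2 = m * (m - 1) := by
        have := Finset.sum_range_id_mul_two m
        have h8 : ((∑ j ∈ range m, j : ℕ) : ℝ) * 2 = ((m * (m - 1) : ℕ) : ℝ) := by
          exact_mod_cast this
        rw [Nat.cast_sum] at h8
        rw [h8]
        push_cast [Nat.cast_sub hm]
        ring
      nlinarith
    have := mul_le_mul_of_nonneg_right h6 hlog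
    nlinarith
  exact (sum_le_sum h1).trans h5

theorem tt_le (J d : ℕ) : tt J d ≤ J := by
  classical
  unfold tt
  refine (card_filter_le _ _).trans ?_
  simp

theorem tt_one (J : ℕ) : tt J 1 = J := by
  classical
  unfold tt
  rw [filter_true_of_mem, card_range]
  intro j _ p hp hd
  exact absurd (Nat.dvd_one.1 hd) hp.one_lt.ne'

theorem totient_mul_mm_le (κ K J d : ℕ) : Nat.totient d * mm κ K J d ≤ κ * J := by
  unfold mm
  split_ifs with h
  · calc Nat.totient d * (κ / d * tt J d) ≤ d * (κ / d * J) :=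
          Nat.mul_le_mul (Nat.totient_le d) (Nat.mul_le_mul_left _ (tt_le J d))
      _ = (d * (κ / d)) * J := by ring
      _ ≤ κ * J := Nat.mul_le_mul_right _ (Nat.mul_div_le κ d)
  · simp

/-- the lower bound for a nonzero multiplicity -/
theorem mm_ge {κ K J d : ℕ} (hKκ : K ≤ κ) (hd : 1 ≤ d) (hdK : d ≤ K) (hm : 1 ≤ mm κ K J d) :
    (κ : ℝ) / (2 * d) ≤ mm κ K J d := by
  have hd0 : (0 : ℝ) < d := by exact_mod_cast hd
  have h1 : mm κ K J d = κ / d * tt J d := by
    unfold mm
    rw [if_pos ⟨hd, hdK⟩]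
  have h2 : 1 ≤ tt J d := by
    by_contra h
    have : tt J d = 0 := by omega
    rw [h1, this, mul_zero] at hm
    omega
  have h3 : 1 ≤ κ / d := (Nat.one_le_div_iff hd).2 (hdK.trans hKκ)
  have h4 : κ < d * (κ / d + 1) := Nat.lt_mul_div_succ κ hd
  have h5 : κ ≤ 2 * d * (κ / d * tt J d) := by
    calc κ ≤ d * (κ / d + 1) := h4.le
      _ ≤ d * (κ / d + κ / d) := Nat.mul_le_mul_left _ (by omega)
      _ = 2 * d * (κ / d * 1) := by ring
      _ ≤ _ := Nat.mul_le_mul_left _ (Nat.mul_le_mul_left _ h2)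
  rw [div_le_iff₀ (by positivity), h1]
  have h6 : (κ : ℝ) ≤ ((2 * d * (κ / d * tt J d) : ℕ) : ℝ) := by exact_mod_cast h5
  rw [Nat.cast_mul, Nat.cast_mul] at h6
  push_cast at h6 ⊢
  linarith

theorem mm_le (κ K J d : ℕ) : mm κ K J d ≤ κ * J := by
  unfold mm
  split_ifs with h
  · exact Nat.mul_le_mul (Nat.div_le_self κ d) (tt_le J d)
  · simp

theorem g (hC : StmtC) (hL : StmtL) (hE : StmtE) (hA : StmtA) (hS1 : StmtS1) (hS2 : StmtS2) :
    StmtG := by
  obtain ⟨CA, hCA0, hCA, -⟩ := hA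
  obtain ⟨C1, hC10, hC1⟩ := hS1
  obtain ⟨C2, hC20, hC2⟩ := hS2
  refine ⟨2 * (3 + C1 * (2 + CA / 2) + C2), by positivity, ?_⟩
  intro N κ K J hJ hK hKκ hN hmain
  have hK4 : 4 ≤ K := by
    refine le_trans ?_ hK
    calc 4 = 2 ^ (2 ^ 1) := by norm_num
      _ ≤ 2 ^ (2 ^ J) := Nat.pow_le_pow_right (by norm_num) (Nat.pow_le_pow_right (by norm_num) hJ)
  have hκ4 : 4 ≤ κ := hK4.trans hKκ
  have hN16 : 16 ≤ N := by
    calc 16 = 4 * 4 * 1 := by norm_num
      _ ≤ κ * K * J := Nat.mul_le_mul (Nat.mul_le_mul hκ4 hK4) hJ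
      _ ≤ N := hN
  have hN0 : (0 : ℝ) < N := by exact_mod_cast (by omega : 0 < N)
  have hκ0 : (0 : ℝ) < κ := by exact_mod_cast (by omega : 0 < κ)
  have hK0 : (0 : ℝ) < K := by exact_mod_cast (by omega : 0 < K)
  have hlogN : 0 ≤ Real.log N := Real.log_natCast_nonneg N
  have hlogK : 0 ≤ Real.log K := Real.log_natCast_nonneg K
  have hκK : (κ : ℝ) * K ≤ N := by
    have : κ * K ≤ N := le_trans (Nat.le_mul_of_pos_right _ hJ) hN
    exact_mod_cast this
  have hΛ : 0 ≤ Real.log (N / (κ * K)) := by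
    apply Real.log_nonneg
    rw [le_div_iff₀ (by positivity), one_mul]
    exact hκK
  obtain ⟨n, z, hn, hz, hprod, hf, hPL⟩ := hL K (mm κ K J)
  have hnN' : n ≤ κ * K * J := by
    rw [hn]
    calc ∑ d ∈ Icc 1 K, Nat.totient d * mm κ K J d ≤ ∑ d ∈ Icc 1 K, κ * J :=
          sum_le_sum fun d _ => totient_mul_mm_le κ K J d
      _ = κ * K * J := by
          rw [sum_const, Nat.card_Icc, smul_eq_mul, Nat.add_sub_cancel]
          ring
  have hnN : n ≤ N := hnN'.trans hN
  have hD : (∏ d ∈ Icc 1 K, cyclotomic d ℤ ^ mm κ K J d).Monic :=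
    monic_prod_of_monic _ _ fun d _ => (cyclotomic.monic d ℤ).pow _
  have hmass := hC1 κ K J hK
  have hform := hC2 κ K J hK
  -- abbreviations
  set m : ℕ → ℕ := mm κ K J with hm
  set S : ℝ := ∑ d ∈ Icc 1 K, (Nat.totient d : ℝ) * (m d : ℝ) ^ 2 with hS
  -- the logarithms of the binomials
  have hbin : ∑ i, Real.log (N.choose (idx z i)) ≤
      ∑ d ∈ Icc 1 K, (Nat.totient d : ℝ) * ((m d : ℝ) ^ 2 *
        (Real.log (2 * N * d / κ) / 2 + 1)) := by
    rw [hf fun j => Real.log (N.choose j)]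
    refine sum_le_sum fun d hd => mul_le_mul_of_nonneg_left ?_ (Nat.cast_nonneg _)
    rw [mem_Icc] at hd
    rcases Nat.eq_zero_or_pos (m d) with h0 | hpos
    · rw [h0]
      simp
    · have hm0 : (0 : ℝ) < m d := by exact_mod_cast hpos
      have hd0 : (0 : ℝ) < d := by exact_mod_cast hd.1
      have hmN : m d ≤ N := (mm_le κ K J d).trans (le_trans (by
        calc κ * J ≤ κ * K * J := by
              rw [mul_assoc]
              exact Nat.mul_le_mul_left _ (Nat.le_mul_of_pos_left _ (by omega))) hN)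
      refine (sum_log_choose_le N (m d) hmN hpos).trans ?_
      refine mul_le_mul_of_nonneg_left ?_ (by positivity)
      have h1 : Real.log ((N : ℝ) / m d) ≤ Real.log (2 * N * d / κ) := by
        apply Real.log_le_log (by positivity)
        have h2 := mm_ge (κ := κ) (K := K) (J := J) hKκ hd.1 hd.2 hpos
        rw [div_le_iff₀ hm0]
        calc (N : ℝ) = 2 * N * d / κ * (κ / (2 * d)) := by field_simp
          _ ≤ 2 * N * d / κ * m d := mul_le_mul_of_nonneg_left h2 (by positivity)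
      linarith
  -- the energy
  have hen : PL z = ∑ d ∈ Icc 1 K, (Nat.totient d : ℝ) * (m d : ℝ) ^ 2 *
      (2 * Real.log d + A (K / d)) - EE K (fun d => (m d : ℝ)) := by
    rw [hPL]
    exact hE K fun d => (m d : ℝ)
  have hAlow : ∑ d ∈ Icc 1 K, (Nat.totient d : ℝ) * (m d : ℝ) ^ 2 *
      (2 * Real.log d + Real.log (K / (2 * d)) - CA) ≤
      ∑ d ∈ Icc 1 K, (Nat.totient d : ℝ) * (m d : ℝ) ^ 2 * (2 * Real.log d + A (K / d)) := by
    refine sum_le_sum fun d hd => mul_le_mul_of_nonneg_left ?_ (by positivity)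
    rw [mem_Icc] at hd
    have hd0 : (0 : ℝ) < d := by exact_mod_cast hd.1
    have h1 : 1 ≤ K / d := (Nat.one_le_div_iff hd.1).2 hd.2
    have h2 := (abs_le.1 (hCA (K / d) h1)).1
    have h3 : Real.log (K / (2 * d)) ≤ Real.log ((K / d : ℕ) : ℝ) := by
      apply Real.log_le_log (by positivity)
      rw [div_le_iff₀ (by positivity)]
      have h4 : K < d * (K / d + 1) := Nat.lt_mul_div_succ K hd.1
      have h5 : K ≤ (K / d) * (2 * d) := by nlinarith
      exact_mod_cast h5
    linarith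
  -- combination
  have hcomb : ∑ d ∈ Icc 1 K, (Nat.totient d : ℝ) * ((m d : ℝ) ^ 2 *
        (Real.log (2 * N * d / κ) / 2 + 1)) -
      (∑ d ∈ Icc 1 K, (Nat.totient d : ℝ) * (m d : ℝ) ^ 2 *
        (2 * Real.log d + Real.log (K / (2 * d)) - CA)) / 2 =
      S * (Real.log (N / (κ * K)) / 2 + Real.log 2 + 1 + CA / 2) := by
    rw [sum_div, ← sum_sub_distrib, hS, sum_mul]
    refine sum_congr rfl fun d hd => ?_
    rw [mem_Icc] at hd
    have hd0 : (0 : ℝ) < d := by exact_mod_cast hd.1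
    have e1 : Real.log (2 * N * d / κ) = Real.log 2 + Real.log N + Real.log d - Real.log κ := by
      rw [Real.log_div (by positivity) (by positivity), Real.log_mul (by positivity) (by positivity),
        Real.log_mul (by positivity) (by positivity)]
    have e2 : Real.log (K / (2 * d)) = Real.log K - Real.log 2 - Real.log d := by
      rw [Real.log_div (by positivity) (by positivity), Real.log_mul (by positivity) (by positivity)]
      ring
    have e3 : Real.log (N / (κ * K)) = Real.log N - Real.log κ - Real.log K := by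
      rw [Real.log_div (by positivity) (by positivity), Real.log_mul (by positivity) (by positivity)]
      ring
    rw [e1, e2, e3]
    ring
  have hfac : Real.log (n.factorial) ≤ n * Real.log N := by
    have h1 : (n.factorial : ℝ) ≤ (N : ℝ) ^ n := by
      have : n.factorial ≤ N ^ n := (Nat.factorial_le_pow n).trans (Nat.pow_le_pow_left hnN n)
      exact_mod_cast this
    calc Real.log (n.factorial) ≤ Real.log ((N : ℝ) ^ n) :=
          Real.log_le_log (by exact_mod_cast n.factorial_pos) h1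
      _ = n * Real.log N := Real.log_pow _ _
  have h2N : Real.log (2 * N + 1) ≤ 2 * Real.log N := by
    have h1 : (2 * (N : ℝ) + 1) ≤ (N : ℝ) ^ 2 := by
      have : (16 : ℝ) ≤ N := by exact_mod_cast hN16
      nlinarith
    calc Real.log (2 * N + 1) ≤ Real.log ((N : ℝ) ^ 2) := Real.log_le_log (by positivity) h1
      _ = 2 * Real.log N := by
          rw [Real.log_pow]
          norm_num
  have hlog2 : Real.log 2 ≤ 1 := by
    have := Real.log_two_lt_d9
    linarith
  have hlog2' : (1 : ℝ) / 2 < Real.log 2 := by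
    have := Real.log_two_gt_d9
    linarith
  have hnR : (n : ℝ) ≤ κ * K * J := by exact_mod_cast hnN'
  have hS0 : 0 ≤ S := by
    rw [hS]
    exact sum_nonneg fun d _ => by positivity
  set Λ : ℝ := Real.log (N / (κ * K)) with hΛdef
  have hcrit : n * Real.log (2 * N + 1) + Real.log (n.factorial) +
      ∑ i, Real.log (N.choose (idx z i)) < N * Real.log 2 + PL z / 2 := by
    have t1 : n * Real.log (2 * N + 1) ≤ n * (2 * Real.log N) :=
      mul_le_mul_of_nonneg_left h2N (Nat.cast_nonneg _)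
    have t2 : (n : ℝ) * Real.log N ≤ κ * K * J * Real.log N :=
      mul_le_mul_of_nonneg_right hnR hlogN
    have t3 : S * (Λ / 2 + Real.log 2 + 1 + CA / 2) ≤
        C1 * κ ^ 2 * Real.log K * ((2 + CA / 2) * (Λ + 1)) := by
      apply mul_le_mul hmass _ (by positivity) (by positivity)
      nlinarith [mul_nonneg hCA0.le hΛ]
    have t4 : EE K (fun d => (m d : ℝ)) ≤
        C2 * (κ ^ 2 * J * Real.log K + J ^ 2 * K ^ 2 * Real.log K ^ 2) := hform
    have p1 : 0 ≤ (κ : ℝ) * K * J * Real.log N := by positivity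
    have p2 : 0 ≤ (κ : ℝ) ^ 2 * Real.log K * (Λ + 1) := by positivity
    have p3 : 0 ≤ (κ : ℝ) ^ 2 * J * Real.log K + J ^ 2 * K ^ 2 * Real.log K ^ 2 := by positivity
    have e0 : C1 * κ ^ 2 * Real.log K * ((2 + CA / 2) * (Λ + 1)) =
        C1 * (2 + CA / 2) * (κ ^ 2 * Real.log K * (Λ + 1)) := by ring
    rw [e0] at t3
    set P1 : ℝ := (κ : ℝ) * K * J * Real.log N
    set P2 : ℝ := (κ : ℝ) ^ 2 * Real.log K * (Λ + 1)
    set P3 : ℝ := (κ : ℝ) ^ 2 * J * Real.log K + J ^ 2 * K ^ 2 * Real.log K ^ 2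
    have hmain' : 2 * (3 + C1 * (2 + CA / 2) + C2) * (P1 + P2 + P3) ≤ N := by
      refine le_trans (le_of_eq ?_) hmain
      simp only [P1, P2, P3]
      ring
    have q1 : 0 ≤ C1 * (2 + CA / 2) := by positivity
    have hsum : 3 * P1 + C1 * (2 + CA / 2) * P2 + C2 * P3 ≤
        (3 + C1 * (2 + CA / 2) + C2) * (P1 + P2 + P3) := by
      nlinarith [mul_nonneg q1 p1, mul_nonneg q1 p3, mul_nonneg hC20.le p1, mul_nonneg hC20.le p2]
    have hC2P3 : 0 ≤ C2 * P3 := mul_nonneg hC20.le p3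
    rw [hen]
    nlinarith [t1, t2, t3, t4, hsum, hmain', hfac, hbin, hAlow, hcomb, hlog2']
  obtain ⟨p, hp0, hpN, hp1, hpD⟩ := hC n N z _ hnN hz hD hprod hcrit
  refine ⟨p, hp0, hpN, hp1, dvd_trans ?_ hpD⟩
  have h1 : cyclotomic 1 ℤ ^ m 1 ∣ ∏ d ∈ Icc 1 K, cyclotomic d ℤ ^ m d :=
    dvd_prod_of_mem (fun d => cyclotomic d ℤ ^ m d) (mem_Icc.2 ⟨le_rfl, by omega⟩)
  have h2 : m 1 = κ * J := by
    rw [hm]
    unfold mm
    rw [if_pos ⟨le_rfl, by omega⟩, Nat.div_one, tt_one]
  rw [h2, cyclotomic_one] at h1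
  exact h1

end Pool.Agent.T6.H1.OV
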