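import Pool.Agent.T6.H1.OV.Defs

set_option autoImplicit false

open scoped BigOperators
open Finset Polynomial

namespace Pool.Agent.T6.H1.OV.ModL

theorem mem_Om (K : ℕ) (ζ : ℂ) : ζ ∈ Om K ↔ orderOf ζ ∈ Icc 1 K := by
  unfold Om
  rw [mem_biUnion]
  constructor
  · rintro ⟨a, ha, h⟩
    rw [mem_Icc] at ha ⊢
    rw [mem_nthRootsFinset (by omega)] at h
    have hd := orderOf_dvd_of_pow_eq_one h
    exact ⟨orderOf_pos_iff.2 (isOfFinOrder_iff_pow_eq_one.2 ⟨a, by omega, h⟩),
      (Nat.le_of_dvd (by omega) hd).trans ha.2⟩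
  · intro h
    refine ⟨orderOf ζ, h, ?_⟩
    rw [mem_Icc] at h
    rw [mem_nthRootsFinset (by omega)]
    exact pow_orderOf_eq_one ζ

open Classical in
theorem fibre_Om (K d : ℕ) (hd : d ∈ Icc 1 K) :
    (Om K).filter (fun ζ => orderOf ζ = d) = primitiveRoots d ℂ := by
  ext ζ
  rw [mem_filter, mem_Om]
  have hd' := mem_Icc.1 hd
  rw [mem_primitiveRoots (by omega)]
  constructor
  · rintro ⟨_, rfl⟩
    exact IsPrimitiveRoot.orderOf ζ
  · intro h
    have := h.eq_orderOf
    rw [← this]
    exact ⟨hd, rfl⟩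

/-- the number of earlier indices runs through `0, …, (number of indices) - 1` -/
theorem idx_fibre {n : ℕ} (z : Fin n → ℂ) (ζ : ℂ) (f : ℕ → ℝ) [DecidableEq ℂ] :
    ∑ i ∈ univ.filter (fun i => z i = ζ), f (idx z i) =
      ∑ j ∈ range (univ.filter (fun i => z i = ζ)).card, f j := by
  classical
  set S := univ.filter (fun i => z i = ζ) with hS
  have hidx : ∀ i ∈ S, idx z i = (S.filter fun t => t < i).card := by
    intro i hi
    rw [hS, mem_filter] at hi
    unfold idx
    congr 1
    ext t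
    simp only [mem_filter, hS, mem_univ, true_and, hi.2]
    tauto
  have hlt : ∀ i ∈ S, ∀ i' ∈ S, i < i' → idx z i < idx z i' := by
    intro i hi i' hi' h
    rw [hidx i hi, hidx i' hi']
    apply card_lt_card
    rw [ssubset_iff_of_subset]
    · exact ⟨i, mem_filter.2 ⟨hi, h⟩, fun h2 => lt_irrefl _ (mem_filter.1 h2).2⟩
    · intro t ht
      rw [mem_filter] at ht ⊢
      exact ⟨ht.1, ht.2.trans h⟩
  have hinj : Set.InjOn (idx z) S := by
    intro i hi i' hi' h
    rcases lt_trichotomy i i' with h1 | h1 | h1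
    · exact absurd h (hlt i hi i' hi' h1).ne
    · exact h1
    · exact absurd h (hlt i' hi' i hi h1).ne'
  have himg : S.image (idx z) = range S.card := by
    apply eq_of_subset_of_card_le
    · intro j hj
      obtain ⟨i, hi, rfl⟩ := mem_image.1 hj
      rw [mem_range, hidx i hi]
      apply card_lt_card
      rw [ssubset_iff_of_subset (filter_subset _ _)]
      exact ⟨i, hi, fun h2 => lt_irrefl _ (mem_filter.1 h2).2⟩
    · rw [card_range, card_image_of_injOn hinj]
  rw [← himg, sum_image hinj]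

end Pool.Agent.T6.H1.OV.ModL

namespace Pool.Agent.T6.H1.OV

open ModL

theorem l : StmtL := by
  classical
  intro K m
  set s : Multiset ℂ := ∑ ζ ∈ Om K, Multiset.replicate (m (orderOf ζ)) ζ with hs
  set L := s.toList with hL
  refine ⟨L.length, fun i => L.get i, ?_⟩
  set z : Fin L.length → ℂ := fun i => L.get i with hz
  have hmap : (univ : Finset (Fin L.length)).val.map z = s := by
    have h1 : (univ : Finset (Fin L.length)).val.map z = ((List.ofFn z : List ℂ) : Multiset ℂ) :=
      Fin.univ_val_map z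
    rw [h1, hz, List.ofFn_get, hL, Multiset.coe_toList]
  -- values
  have hcount : ∀ ζ ∈ Om K, (univ.filter (fun i => z i = ζ)).card = m (orderOf ζ) := by
    intro ζ hζ
    have h1 : (univ.filter (fun i => z i = ζ)).card = Multiset.count ζ s := by
      rw [← hmap, Multiset.count_map]
      rw [Finset.card_def, Finset.filter_val]
      congr 1
      apply Multiset.filter_congr
      intro i _
      exact eq_comm
    rw [h1, hs, Multiset.count_sum']
    simp only [Multiset.count_replicate]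
    rw [sum_ite_eq' (Om K) ζ (fun ξ => m (orderOf ξ)), if_pos hζ]
  have hmaps : ∀ i ∈ (univ : Finset (Fin L.length)), z i ∈ Om K := by
    intro i _
    have h1 : z i ∈ s := by
      rw [← hmap]
      exact Multiset.mem_map.2 ⟨i, mem_univ_val i, rfl⟩
    rw [hs, Multiset.mem_sum] at h1
    obtain ⟨ζ, hζ, h2⟩ := h1
    rw [Multiset.eq_of_mem_replicate h2]
    exact hζ
  have hord : ∀ ζ ∈ Om K, orderOf ζ ∈ Icc 1 K := fun ζ hζ => (mem_Om K ζ).1 hζ
  -- sums over the list
  have hsum : ∀ F : ℂ → ℝ, ∑ i, F (z i) = ∑ ζ ∈ Om K, (m (orderOf ζ) : ℝ) * F ζ := by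
    intro F
    rw [← sum_fiberwise_of_maps_to hmaps]
    refine sum_congr rfl fun ζ hζ => ?_
    rw [sum_congr rfl (g := fun _ => F ζ) (fun i hi => by rw [(mem_filter.1 hi).2]), sum_const,
      hcount ζ hζ, nsmul_eq_mul]
  have hgroup : ∀ G : ℕ → ℝ, ∑ ζ ∈ Om K, G (orderOf ζ) = ∑ d ∈ Icc 1 K, (Nat.totient d : ℝ) * G d := by
    intro G
    rw [← sum_fiberwise_of_maps_to hord]
    refine sum_congr rfl fun d hd => ?_
    rw [sum_congr rfl (g := fun _ => G d) (fun i hi => by rw [(mem_filter.1 hi).2]), sum_const,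
      fibre_Om K d hd, Complex.card_primitiveRoots, nsmul_eq_mul]
  refine ⟨?_, ?_, ?_, ?_, ?_⟩
  · have h1 := hsum (fun _ => 1)
    rw [sum_const, card_univ, Fintype.card_fin, nsmul_eq_mul, mul_one] at h1
    simp only [mul_one] at h1
    rw [hgroup (fun d => (m d : ℝ))] at h1
    have h2 : ((L.length : ℕ) : ℝ) = ((∑ d ∈ Icc 1 K, Nat.totient d * m d : ℕ) : ℝ) := by
      rw [h1]
      push_cast
      rfl
    exact_mod_cast h2
  · intro i
    have h1 := hmaps i (mem_univ i)
    have h2 := hord _ h1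
    rw [mem_Icc] at h2
    have h3 := pow_orderOf_eq_one (z i)
    have h4 := congrArg norm h3
    rw [norm_pow, norm_one] at h4
    exact (pow_eq_one_iff_of_nonneg (norm_nonneg _) (by omega)).1 h4
  · have h1 : ∏ i, (X - C (z i)) = ∏ ζ ∈ Om K, (X - C ζ : ℂ[X]) ^ m (orderOf ζ) := by
      rw [← prod_fiberwise_of_maps_to hmaps]
      refine prod_congr rfl fun ζ hζ => ?_
      rw [prod_congr rfl (g := fun _ => (X - C ζ : ℂ[X])) (fun i hi => by rw [(mem_filter.1 hi).2]),
        prod_const, hcount ζ hζ]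
    rw [h1, ← prod_fiberwise_of_maps_to hord, Polynomial.map_prod]
    refine prod_congr rfl fun d hd => ?_
    rw [prod_congr rfl (g := fun ζ : ℂ => (X - C ζ : ℂ[X]) ^ m d)
      (fun i hi => by rw [(mem_filter.1 hi).2]), fibre_Om K d hd, prod_pow, Polynomial.map_pow,
      map_cyclotomic_int]
    rw [mem_Icc] at hd
    rw [cyclotomic_eq_prod_X_sub_primitiveRoots (Complex.isPrimitiveRoot_exp d (by omega))]
  · intro f
    rw [← sum_fiberwise_of_maps_to hmaps]
    rw [← hgroup (fun d => ∑ j ∈ range (m d), f j)]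
    refine sum_congr rfl fun ζ hζ => ?_
    rw [idx_fibre z ζ f, hcount ζ hζ]
  · unfold PL
    rw [hsum (fun x => ∑ t, Real.log ‖x - z t‖)]
    refine sum_congr rfl fun ζ _ => ?_
    rw [hsum (fun y => Real.log ‖ζ - y‖), mul_sum]
    refine sum_congr rfl fun ξ _ => ?_
    ring

end Pool.Agent.T6.H1.OV
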