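import Pool.Agent.T6.H1.OV.Defs

set_option autoImplicit false

open scoped BigOperators
open Finset Polynomial

namespace Pool.Agent.T6.H1.OV.ModP

/-- `∏_{ξ ∈ μ_b} (x - ξ) = x ^ b - 1` -/
theorem prod_all (b : ℕ) (hb : 0 < b) (x : ℂ) :
    ∏ ξ ∈ nthRootsFinset b (1 : ℂ), (x - ξ) = x ^ b - 1 := by
  have h := X_pow_sub_one_eq_prod hb (Complex.isPrimitiveRoot_exp b hb.ne')
  have h2 := congrArg (Polynomial.eval x) h
  rw [eval_prod] at h2
  simp only [eval_sub, eval_pow, eval_X, eval_one, eval_C] at h2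
  exact h2.symm

theorem sum_out (b : ℕ) (hb : 0 < b) (x : ℂ) (hx : x ^ b ≠ 1) :
    ∑ ξ ∈ nthRootsFinset b (1 : ℂ), Real.log ‖x - ξ‖ = Real.log ‖x ^ b - 1‖ := by
  rw [← prod_all b hb x, norm_prod, Real.log_prod]
  intro ξ hξ
  rw [mem_nthRootsFinset hb] at hξ
  rw [norm_ne_zero_iff, sub_ne_zero]
  rintro rfl
  exact hx hξ

theorem sum_in (b : ℕ) (hb : 0 < b) (x : ℂ) (hx : x ^ b = 1) :
    ∑ ξ ∈ nthRootsFinset b (1 : ℂ), Real.log ‖x - ξ‖ = Real.log b := by
  classical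
  have hxm : x ∈ nthRootsFinset b (1 : ℂ) := (mem_nthRootsFinset hb (1 : ℂ)).2 hx
  rw [← add_sum_erase _ _ hxm, sub_self, norm_zero, Real.log_zero, zero_add]
  have h := X_pow_sub_one_eq_prod hb (Complex.isPrimitiveRoot_exp b hb.ne')
  have h2 := congrArg (fun p : ℂ[X] => Polynomial.eval x (derivative p)) h
  beta_reduce at h2
  have h3 : Polynomial.eval x (derivative (X ^ b - 1 : ℂ[X])) = b * x ^ (b - 1) := by
    simp [derivative_X_pow]
  have h4 : Polynomial.eval x (derivative (∏ ζ ∈ nthRootsFinset b (1 : ℂ), (X - C ζ))) =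
      ∏ ζ ∈ (nthRootsFinset b (1 : ℂ)).erase x, (x - ζ) := by
    rw [← mul_prod_erase _ _ hxm, derivative_mul, eval_add, eval_mul, eval_mul]
    simp only [derivative_sub, derivative_X, derivative_C, sub_zero, eval_one, one_mul, eval_sub,
      eval_X, eval_C, sub_self, zero_mul, add_zero]
    rw [eval_prod]
    simp
  rw [h3, h4] at h2
  have hn : ‖x‖ = 1 := by
    have := congrArg norm hx
    rw [norm_pow, norm_one] at this
    exact (pow_eq_one_iff_of_nonneg (norm_nonneg x) hb.ne').1 this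
  have h5 : ∏ ζ ∈ (nthRootsFinset b (1 : ℂ)).erase x, ‖x - ζ‖ = b := by
    rw [← norm_prod, ← h2, norm_mul, norm_pow, hn, one_pow, mul_one, Complex.norm_natCast]
  rw [← Real.log_prod, h5]
  intro ζ hζ
  rw [norm_ne_zero_iff, sub_ne_zero]
  exact (ne_of_mem_erase hζ).symm

/-- fibres of `ζ ↦ ζ ^ b` on `μ_a` -/
theorem fibre (a b : ℕ) (ha : 0 < a) (hb : 0 < b) (f : ℂ → ℝ) :
    ∑ ζ ∈ nthRootsFinset a (1 : ℂ), f (ζ ^ b) =
      (a.gcd b : ℝ) * ∑ η ∈ nthRootsFinset (a / a.gcd b) (1 : ℂ), f η := by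
  classical
  set g := a.gcd b with hg
  have hg0 : 0 < g := Nat.gcd_pos_of_pos_left _ ha
  have hga : g ∣ a := Nat.gcd_dvd_left a b
  have hgb : g ∣ b := Nat.gcd_dvd_right a b
  have hag : 0 < a / g := Nat.div_pos (Nat.le_of_dvd ha hga) hg0
  have hprim := Complex.isPrimitiveRoot_exp a ha.ne'
  set w := Complex.exp (2 * Real.pi * Complex.I / a) with hw
  -- parametrise by powers
  have hpar : ∀ (n : ℕ) (hn : 0 < n) (v : ℂ), IsPrimitiveRoot v n → ∀ F : ℂ → ℝ,
      ∑ ζ ∈ nthRootsFinset n (1 : ℂ), F ζ = ∑ i ∈ range n, F (v ^ i) := by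
    intro n hn v hv F
    symm
    refine sum_bij (fun i _ => v ^ i) ?_ ?_ ?_ ?_
    · intro i _
      rw [mem_nthRootsFinset hn, ← pow_mul, mul_comm, pow_mul, hv.pow_eq_one, one_pow]
    · intro i hi j hj h
      exact hv.pow_inj (mem_range.1 hi) (mem_range.1 hj) h
    · intro ζ hζ
      rw [mem_nthRootsFinset hn] at hζ
      have : NeZero n := ⟨hn.ne'⟩
      obtain ⟨i, hi, h⟩ := hv.eq_pow_of_pow_eq_one hζ
      exact ⟨i, mem_range.2 hi, h⟩
    · intro i _
      rfl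
  have hprim2 : IsPrimitiveRoot (w ^ b) (a / g) := by
    have h2 := IsPrimitiveRoot.orderOf (w ^ b)
    rw [orderOf_pow' w hb.ne', ← hprim.eq_orderOf] at h2
    exact h2
  rw [hpar a ha w hprim (fun ζ => f (ζ ^ b)), hpar (a / g) hag (w ^ b) hprim2 f]
  -- sum over range a of a function of period a / g
  have hper : ∀ i, f ((w ^ i) ^ b) = f ((w ^ b) ^ (i % (a / g))) := by
    intro i
    congr 1
    rw [← pow_mul, mul_comm, pow_mul]
    exact (pow_mod_orderOf (w ^ b) i ▸ by rw [← hprim2.eq_orderOf])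
  rw [sum_congr rfl fun i _ => hper i]
  have hag2 : a = g * (a / g) := (Nat.mul_div_cancel' hga).symm
  have : ∀ k : ℕ, ∑ i ∈ range (k * (a / g)), f ((w ^ b) ^ (i % (a / g))) =
      (k : ℝ) * ∑ i ∈ range (a / g), f ((w ^ b) ^ i) := by
    intro k
    induction k with
    | zero => simp
    | succ k ih =>
      rw [Nat.add_mul, one_mul, sum_range_add, ih]
      have : ∑ x ∈ range (a / g), f ((w ^ b) ^ ((k * (a / g) + x) % (a / g))) =
          ∑ i ∈ range (a / g), f ((w ^ b) ^ i) := by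
        refine sum_congr rfl fun x hx => ?_
        rw [Nat.add_comm (k * (a / g)) x, Nat.add_mul_mod_self_right,
          Nat.mod_eq_of_lt (mem_range.1 hx)]
      rw [this]
      push_cast
      ring
  have h6 := this g
  rw [← hag2] at h6
  exact h6

end Pool.Agent.T6.H1.OV.ModP

namespace Pool.Agent.T6.H1.OV

open ModP

theorem p : StmtP := by
  classical
  intro a b ha hb
  set g := a.gcd b with hg
  have hg0 : 0 < g := Nat.gcd_pos_of_pos_left _ ha
  have hga : g ∣ a := Nat.gcd_dvd_left a b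
  have hag : 0 < a / g := Nat.div_pos (Nat.le_of_dvd ha hga) hg0
  have h1 : ∀ ζ ∈ nthRootsFinset a (1 : ℂ), ∑ ξ ∈ nthRootsFinset b (1 : ℂ), Real.log ‖ζ - ξ‖ =
      (fun η : ℂ => if η = 1 then Real.log b else Real.log ‖η - 1‖) (ζ ^ b) := by
    intro ζ _
    by_cases h : ζ ^ b = 1
    · simp only [h, if_true]
      exact sum_in b hb ζ h
    · simp only [if_neg h]
      exact sum_out b hb ζ h
  rw [sum_congr rfl h1]
  refine (fibre a b ha hb (fun η : ℂ => if η = 1 then Real.log b else Real.log ‖η - 1‖)).trans ?_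
  congr 1
  beta_reduce
  have h1m : (1 : ℂ) ∈ nthRootsFinset (a / a.gcd b) (1 : ℂ) :=
    (mem_nthRootsFinset hag (1 : ℂ)).2 (one_pow _)
  have h2 := sum_in (a / a.gcd b) hag 1 (one_pow _)
  rw [← add_sum_erase _ _ h1m, sub_self, norm_zero, Real.log_zero, zero_add] at h2
  rw [← add_sum_erase _ _ h1m, if_pos rfl]
  have h3 : ∑ x ∈ (nthRootsFinset (a / a.gcd b) (1 : ℂ)).erase 1,
      (if x = 1 then Real.log b else Real.log ‖x - 1‖) =
      ∑ x ∈ (nthRootsFinset (a / a.gcd b) (1 : ℂ)).erase 1, Real.log ‖1 - x‖ := by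
    refine sum_congr rfl fun x hx => ?_
    rw [if_neg (ne_of_mem_erase hx), norm_sub_rev]
  rw [h3, h2, ← Real.log_mul (by positivity) (by rw [← hg]; positivity)]
  congr 1
  rw [← Nat.cast_mul]
  congr 1
  rw [Nat.lcm, mul_comm b, Nat.div_mul_right_comm (Nat.gcd_dvd_left a b)]

end Pool.Agent.T6.H1.OV
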