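import Pool.Agent.T6.H1.OV.Defs
import Pool.Agent.Erdos456.Mertens

/-!
# Module R: integers without small prime factors
-/

set_option autoImplicit false

open scoped BigOperators
open Finset Polynomial

namespace Pool.Agent.T6.H1.OV

namespace ModR

open Pool.Agent.Erdos456.Mert

/-- `n ↦ 1 / n` as a monoid homomorphism -/
noncomputable def invHom : ℕ →* ℝ where
  toFun n := (n : ℝ)⁻¹
  map_one' := by simp
  map_mul' a b := by rw [Nat.cast_mul, mul_inv]

theorem invHom_apply (n : ℕ) : invHom n = (n : ℝ)⁻¹ := rfl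

open Classical in
/-- the Euler product -/
theorem euler (K z : ℕ) :
    ∑ e ∈ (Icc 1 K).filter (fun e => ∀ p : ℕ, p.Prime → p ∣ e → z < p), (1 : ℝ) / e ≤
      ∏ p ∈ (Icc (z + 1) K).filter Nat.Prime, (1 - (p : ℝ)⁻¹)⁻¹ := by
  have h := (EulerProduct.summable_and_hasSum_factoredNumbers_prod_filter_prime_geometric
    (f := invHom) (fun {p} hp => by
      rw [invHom_apply, norm_inv, Real.norm_natCast]
      exact inv_lt_one_of_one_lt₀ (by exact_mod_cast hp.one_lt)) (Icc (z + 1) K)).2
  have hmem : ∀ e ∈ (Icc 1 K).filter (fun e => ∀ p : ℕ, p.Prime → p ∣ e → z < p),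
      e ∈ Nat.factoredNumbers (Icc (z + 1) K) := by
    intro e he
    rw [mem_filter, mem_Icc] at he
    rw [Nat.mem_factoredNumbers_iff_primeFactors_subset]
    refine ⟨by omega, fun p hp => ?_⟩
    rw [Nat.mem_primeFactors] at hp
    rw [mem_Icc]
    exact ⟨he.2 p hp.1 hp.2.1, (Nat.le_of_dvd (by omega) hp.2.1).trans he.1.2⟩
  have h2 := sum_le_hasSum (((Icc 1 K).filter
    (fun e => ∀ p : ℕ, p.Prime → p ∣ e → z < p)).subtype
      (fun e => e ∈ Nat.factoredNumbers (Icc (z + 1) K)))
    (fun i _ => by rw [invHom_apply]; positivity) h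
  rw [Finset.sum_subtype_of_mem (f := fun e => invHom e) hmem] at h2
  calc _ = ∑ e ∈ (Icc 1 K).filter (fun e => ∀ p : ℕ, p.Prime → p ∣ e → z < p), invHom e := by
        refine Finset.sum_congr rfl fun e _ => ?_
        rw [invHom_apply, one_div]
    _ ≤ _ := h2
    _ = _ := rfl

theorem inv_lower : ∃ C : ℝ, 0 ≤ C ∧ (∀ z : ℕ, 2 ≤ z →
    Real.log (Real.log z) - C ≤ ∑ p ∈ (Icc 1 z).filter Nat.Prime, (1 : ℝ) / p) ∧
    (∀ z : ℕ, 2 ≤ z →
    ∑ p ∈ (Icc 1 z).filter Nat.Prime, (1 : ℝ) / p ≤ Real.log (Real.log z) + C) := by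
  obtain ⟨C, hC⟩ := mertens_inv
  have hC0 : 0 ≤ C := (abs_nonneg _).trans (hC 3 le_rfl)
  have hl2 := Real.log_two_gt_d9
  have hl2' := Real.log_two_lt_d9
  have hll : -(1 / 2) ≤ Real.log (Real.log 2) := by
    have h := Real.one_sub_inv_le_log_of_pos (x := Real.log 2) (by linarith)
    have h2 : (Real.log 2)⁻¹ ≤ 3 / 2 := by
      rw [inv_le_comm₀ (by linarith) (by norm_num)]
      linarith
    linarith
  have hll' : Real.log (Real.log 2) ≤ 0 := Real.log_nonpos (by linarith) (by linarith)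
  have hs2 : ∑ p ∈ (Icc 1 2).filter Nat.Prime, (1 : ℝ) / p = 1 / 2 := by
    have : (Icc 1 2).filter Nat.Prime = {2} := by decide
    rw [this]; simp
  refine ⟨C + 1, by linarith, fun z hz => ?_, fun z hz => ?_⟩
  · rcases Nat.lt_or_ge z 3 with h | h
    · obtain rfl : z = 2 := by omega
      rw [hs2]; push_cast; linarith
    · have := abs_le.1 (hC z h)
      linarith [this.1]
  · rcases Nat.lt_or_ge z 3 with h | h
    · obtain rfl : z = 2 := by omega
      rw [hs2]; push_cast; linarith
    · have := abs_le.1 (hC z h)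
      linarith [this.2]

end ModR

open ModR Pool.Agent.Erdos456.Mert in
theorem r : StmtR := by
  classical
  obtain ⟨C, hC0, hlo, hup⟩ := inv_lower
  obtain ⟨C2, hC20, hC2⟩ := sum_small_bound
  refine ⟨Real.exp (2 * C + C2 / Real.log 2), Real.exp_pos _, fun K z hz hzK => ?_⟩
  refine (euler K z).trans ?_
  have hl2 := Real.log_two_gt_d9
  have hlz : 0 < Real.log z := Real.log_pos (by exact_mod_cast hz)
  have hlK : 0 < Real.log K := Real.log_pos (by exact_mod_cast hz.trans hzK)
  have h1 : ∏ p ∈ (Icc (z + 1) K).filter Nat.Prime, (1 - (p : ℝ)⁻¹)⁻¹ ≤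
      Real.exp (∑ p ∈ (Icc (z + 1) K).filter Nat.Prime, ((1 : ℝ) / p + 1 / (p * (p - 1)))) := by
    rw [Real.exp_sum]
    refine Finset.prod_le_prod (fun p hp => ?_) fun p hp => ?_
    · rw [mem_filter] at hp
      have : (1 : ℝ) < p := by exact_mod_cast hp.2.one_lt
      have : (p : ℝ)⁻¹ < 1 := inv_lt_one_of_one_lt₀ this
      exact inv_nonneg.2 (by linarith)
    · rw [mem_filter] at hp
      have hp1 : (1 : ℝ) < p := by exact_mod_cast hp.2.one_lt
      have e1 : (1 - (p : ℝ)⁻¹)⁻¹ = 1 / (p - 1) + 1 := by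
        have : (p : ℝ) ≠ 0 := by linarith
        have : (p : ℝ) - 1 ≠ 0 := by linarith
        field_simp
        ring
      have e2 : (1 : ℝ) / p + 1 / (p * (p - 1)) = 1 / (p - 1) := by
        have : (p : ℝ) ≠ 0 := by linarith
        have : (p : ℝ) - 1 ≠ 0 := by linarith
        field_simp
        ring
      rw [e1, e2]
      exact Real.add_one_le_exp _
  have hsplit : (Icc 1 z).filter Nat.Prime ∪ (Icc (z + 1) K).filter Nat.Prime =
      (Icc 1 K).filter Nat.Prime := by
    ext p
    simp only [mem_union, mem_filter, mem_Icc]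
    constructor
    · rintro (⟨h, h'⟩ | ⟨h, h'⟩)
      · exact ⟨by omega, h'⟩
      · exact ⟨by omega, h'⟩
    · rintro ⟨h, h'⟩
      rcases Nat.lt_or_ge z p with h2 | h2
      · exact Or.inr ⟨by omega, h'⟩
      · exact Or.inl ⟨by omega, h'⟩
  have hdisj : Disjoint ((Icc 1 z).filter Nat.Prime) ((Icc (z + 1) K).filter Nat.Prime) := by
    rw [Finset.disjoint_left]
    intro p hp hp'
    rw [mem_filter, mem_Icc] at hp hp'
    omega
  have h2 : ∑ p ∈ (Icc (z + 1) K).filter Nat.Prime, (1 : ℝ) / p ≤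
      Real.log (Real.log K) - Real.log (Real.log z) + 2 * C := by
    have e := Finset.sum_union hdisj (f := fun p : ℕ => (1 : ℝ) / p)
    rw [hsplit] at e
    have := hlo z hz
    have := hup K (hz.trans hzK)
    linarith
  have h3 : ∑ p ∈ (Icc (z + 1) K).filter Nat.Prime, (1 : ℝ) / (p * (p - 1)) ≤
      C2 / Real.log 2 := by
    rw [le_div_iff₀ (by linarith), Finset.sum_mul]
    calc ∑ p ∈ (Icc (z + 1) K).filter Nat.Prime, (1 : ℝ) / (p * (p - 1)) * Real.log 2
        ≤ ∑ p ∈ (Icc (z + 1) K).filter Nat.Prime, Real.log p / (p * (p - 1)) := by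
          refine Finset.sum_le_sum fun p hp => ?_
          rw [mem_filter] at hp
          have hp2 : (2 : ℝ) ≤ p := by exact_mod_cast hp.2.two_le
          have : Real.log 2 ≤ Real.log p := Real.log_le_log (by norm_num) hp2
          rw [div_mul_eq_mul_div, one_mul]
          exact div_le_div_of_nonneg_right this (by nlinarith)
      _ ≤ ∑ p ∈ PP K, Real.log p / (p * (p - 1)) := by
          refine Finset.sum_le_sum_of_subset_of_nonneg ?_ fun p hp _ => ?_
          · rw [show PP K = (Icc 1 K).filter Nat.Prime from rfl, ← hsplit]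
            exact Finset.subset_union_right
          · rw [mem_filter] at hp
            have hp2 : (2 : ℝ) ≤ p := by exact_mod_cast hp.2.two_le
            exact div_nonneg (Real.log_nonneg (by linarith)) (by nlinarith)
      _ ≤ C2 := hC2 K
  refine h1.trans ?_
  rw [Finset.sum_add_distrib]
  calc Real.exp (∑ p ∈ (Icc (z + 1) K).filter Nat.Prime, (1 : ℝ) / p +
        ∑ p ∈ (Icc (z + 1) K).filter Nat.Prime, (1 : ℝ) / (p * (p - 1)))
      ≤ Real.exp ((2 * C + C2 / Real.log 2) +
          (Real.log (Real.log K) - Real.log (Real.log z))) := by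
        rw [Real.exp_le_exp]; linarith
    _ = Real.exp (2 * C + C2 / Real.log 2) * Real.log K / Real.log z := by
        rw [Real.exp_add, Real.exp_sub, Real.exp_log hlK, Real.exp_log hlz, mul_div_assoc]

end Pool.Agent.T6.H1.OV
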