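import Pool.Agent.T6.H1.OV.Defs

/-!
# Module S1: the mass
-/

set_option autoImplicit false

open scoped BigOperators
open Finset Polynomial

namespace Pool.Agent.T6.H1.OV

namespace ModS1

open Classical in
theorem tt_succ (J d : ℕ) :
    tt (J + 1) d = tt J d + (if ∀ p : ℕ, p.Prime → p ∣ d → 2 ^ (2 ^ J) < p then 1 else 0) := by
  unfold tt
  rw [Finset.range_add_one, Finset.filter_insert]
  split_ifs with h
  · rw [Finset.card_insert_of_notMem (by simp)]
  · rfl

theorem tt_zero (d : ℕ) : tt 0 d = 0 := by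
  unfold tt; simp

theorem tt_le (J d : ℕ) : tt J d ≤ J := by
  classical
  unfold tt
  exact (Finset.card_filter_le _ _).trans (by simp)

theorem tt_full (J d : ℕ) (h : ∀ p : ℕ, p.Prime → p ∣ d → 2 ^ (2 ^ J) < p) : tt J d = J := by
  classical
  unfold tt
  rw [Finset.filter_true_of_mem, Finset.card_range]
  intro j hj p hp hpd
  rw [mem_range] at hj
  refine lt_of_le_of_lt ?_ (h p hp hpd)
  exact Nat.pow_le_pow_right (by norm_num) (Nat.pow_le_pow_right (by norm_num) hj.le)

open Classical in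
/-- the square of the number of scales -/
theorem tt_sq (J d : ℕ) :
    ((tt J d : ℝ)) ^ 2 = ∑ j ∈ range J,
      if ∀ p : ℕ, p.Prime → p ∣ d → 2 ^ (2 ^ j) < p then (2 * (j : ℝ) + 1) else 0 := by
  induction J with
  | zero => rw [tt_zero]; simp
  | succ J ih =>
    rw [Finset.sum_range_succ, ← ih, tt_succ]
    split_ifs with h
    · rw [tt_full J d h]; push_cast; ring
    · simp

theorem geom (J : ℕ) : ∑ j ∈ range J, (2 * (j : ℝ) + 1) / 2 ^ j = 6 - (4 * J + 6) / 2 ^ J := by
  induction J with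
  | zero => simp
  | succ J ih =>
    rw [Finset.sum_range_succ, ih]
    have : (2 : ℝ) ^ J ≠ 0 := by positivity
    rw [pow_succ]
    field_simp
    push_cast
    ring

end ModS1

open ModS1 in
theorem s1 (hR : StmtR) : StmtS1 := by
  classical
  obtain ⟨C, hC0, hC⟩ := hR
  have hl2 := Real.log_two_gt_d9
  refine ⟨C * 6 / Real.log 2, by positivity, fun κ K J hJ => ?_⟩
  have hK2 : 2 ≤ K := by
    refine le_trans ?_ hJ
    calc 2 = 2 ^ 1 := by norm_num
      _ ≤ 2 ^ (2 ^ J) := Nat.pow_le_pow_right (by norm_num) (Nat.one_le_two_pow)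
  have hlK : 0 < Real.log K := Real.log_pos (by exact_mod_cast hK2)
  calc ∑ d ∈ Icc 1 K, (Nat.totient d : ℝ) * (mm κ K J d : ℝ) ^ 2
      ≤ ∑ d ∈ Icc 1 K, (κ : ℝ) ^ 2 * ((1 : ℝ) / d * (tt J d : ℝ) ^ 2) := by
        refine Finset.sum_le_sum fun d hd => ?_
        rw [mem_Icc] at hd
        have hd0 : (0 : ℝ) < d := by exact_mod_cast hd.1
        have h1 : (mm κ K J d : ℝ) ≤ κ / d * tt J d := by
          rw [mm, if_pos hd, Nat.cast_mul]
          exact mul_le_mul_of_nonneg_right Nat.cast_div_le (by positivity)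
        have h2 : (Nat.totient d : ℝ) ≤ d := by exact_mod_cast Nat.totient_le d
        calc (Nat.totient d : ℝ) * (mm κ K J d : ℝ) ^ 2
            ≤ d * (κ / d * tt J d) ^ 2 :=
              mul_le_mul h2 (pow_le_pow_left₀ (by positivity) h1 2) (by positivity) hd0.le
          _ = (κ : ℝ) ^ 2 * ((1 : ℝ) / d * (tt J d : ℝ) ^ 2) := by
              field_simp
    _ = (κ : ℝ) ^ 2 * ∑ d ∈ Icc 1 K, ∑ j ∈ range J, (1 : ℝ) / d *
          (if ∀ p : ℕ, p.Prime → p ∣ d → 2 ^ (2 ^ j) < p then (2 * (j : ℝ) + 1) else 0) := by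
        rw [Finset.mul_sum]
        refine Finset.sum_congr rfl fun d _ => ?_
        rw [tt_sq, Finset.mul_sum]
    _ = (κ : ℝ) ^ 2 * ∑ j ∈ range J, (2 * (j : ℝ) + 1) *
          ∑ d ∈ (Icc 1 K).filter (fun e => ∀ p : ℕ, p.Prime → p ∣ e → 2 ^ (2 ^ j) < p),
            (1 : ℝ) / d := by
        rw [Finset.sum_comm]
        congr 1
        refine Finset.sum_congr rfl fun j _ => ?_
        rw [Finset.sum_filter, Finset.mul_sum]
        refine Finset.sum_congr rfl fun d _ => ?_
        split_ifs <;> ring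
    _ ≤ (κ : ℝ) ^ 2 * ∑ j ∈ range J, (C * Real.log K / Real.log 2) *
          ((2 * (j : ℝ) + 1) / 2 ^ j) := by
        refine mul_le_mul_of_nonneg_left (Finset.sum_le_sum fun j hj => ?_) (by positivity)
        rw [mem_range] at hj
        have h1 := hC K (2 ^ (2 ^ j))
          (by
            calc 2 = 2 ^ 1 := by norm_num
              _ ≤ 2 ^ (2 ^ j) := Nat.pow_le_pow_right (by norm_num) (Nat.one_le_two_pow))
          (le_trans (Nat.pow_le_pow_right (by norm_num)
            (Nat.pow_le_pow_right (by norm_num) hj.le)) hJ)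
        have h2 : Real.log ((2 ^ (2 ^ j) : ℕ) : ℝ) = 2 ^ j * Real.log 2 := by
          rw [Nat.cast_pow, Real.log_pow]; push_cast; ring
        rw [h2] at h1
        calc (2 * (j : ℝ) + 1) * _ ≤ (2 * (j : ℝ) + 1) *
              (C * Real.log K / (2 ^ j * Real.log 2)) :=
              mul_le_mul_of_nonneg_left h1 (by positivity)
          _ = _ := by
              have : Real.log 2 ≠ 0 := by linarith
              field_simp
    _ = (κ : ℝ) ^ 2 * ((C * Real.log K / Real.log 2) * (6 - (4 * J + 6) / 2 ^ J)) := by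
        rw [← Finset.mul_sum, geom]
    _ ≤ (κ : ℝ) ^ 2 * ((C * Real.log K / Real.log 2) * 6) := by
        refine mul_le_mul_of_nonneg_left (mul_le_mul_of_nonneg_left ?_ ?_) (by positivity)
        · have : (0 : ℝ) ≤ (4 * J + 6) / 2 ^ J := by positivity
          linarith
        · exact div_nonneg (mul_nonneg hC0.le hlK.le) (by linarith)
    _ = C * 6 / Real.log 2 * κ ^ 2 * Real.log K := by ring

end Pool.Agent.T6.H1.OV
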