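import Pool.Agent.T6.H1.OV.Defs

/-!
Module S2 of project OV: the Dirichlet form of the multiplicities `mm κ K J`.
-/

set_option autoImplicit false

open scoped BigOperators
open Finset Polynomial

namespace Pool.Agent.T6.H1.OV
namespace ModS2

/-- all the prime factors are larger than `2 ^ (2 ^ j)` -/
def rho (j e : ℕ) : Prop := ∀ p : ℕ, p.Prime → p ∣ e → 2 ^ (2 ^ j) < p

open Classical in
theorem tt_eq (J e : ℕ) : tt J e = ((range J).filter fun j => rho j e).card := by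
  unfold tt rho
  rfl

theorem tt_le (J e : ℕ) : tt J e ≤ J := by
  classical
  rw [tt_eq]
  exact (card_filter_le _ _).trans (by simp)

open Classical in
theorem tdiff (J e q : ℕ) :
    ((tt J e : ℝ) - tt J (e * q)) ^ 2 ≤ ∑ i ∈ range J, ∑ j ∈ range J,
      (if rho (max i j) e then (1 : ℝ) else 0) *
        (if q.minFac ≤ 2 ^ (2 ^ (min i j)) then (1 : ℝ) else 0) := by
  set S := (range J).filter fun j => rho j e ∧ ¬ rho j (e * q) with hS
  have hsub : ((range J).filter fun j => rho j (e * q)) ⊆ ((range J).filter fun j => rho j e) := by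
    intro j hj
    rw [mem_filter] at hj ⊢
    exact ⟨hj.1, fun p hp hpe => hj.2 p hp (hpe.mul_right q)⟩
  have hcard : (tt J e : ℝ) - tt J (e * q) = (S.card : ℝ) := by
    rw [tt_eq, tt_eq, ← Nat.cast_sub (card_le_card hsub), ← card_sdiff_of_subset hsub]
    congr 2
    ext j
    simp only [hS, mem_sdiff, mem_filter]
    tauto
  have hmem : ∀ j ∈ S, rho j e ∧ q.minFac ≤ 2 ^ (2 ^ j) := by
    intro j hj
    rw [hS, mem_filter] at hj
    refine ⟨hj.2.1, ?_⟩
    have h2 := hj.2.2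
    unfold rho at h2
    push Not at h2
    obtain ⟨p, hp, hpd, hple⟩ := h2
    rcases (Nat.Prime.dvd_mul hp).1 hpd with h | h
    · exact absurd (hj.2.1 p hp h) (not_lt.2 hple)
    · exact (Nat.minFac_le_of_dvd hp.two_le h).trans hple
  rw [hcard]
  have hsq : ((S.card : ℝ)) ^ 2 = ∑ i ∈ S, ∑ j ∈ S, (1 : ℝ) := by
    simp [sq]
  rw [hsq]
  have hSr : S ⊆ range J := filter_subset _ _
  calc ∑ i ∈ S, ∑ j ∈ S, (1 : ℝ) ≤ ∑ i ∈ S, ∑ j ∈ S, (if rho (max i j) e then (1 : ℝ) else 0) *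
        (if q.minFac ≤ 2 ^ (2 ^ (min i j)) then (1 : ℝ) else 0) := by
        refine sum_le_sum fun i hi => sum_le_sum fun j hj => ?_
        have h1 : rho (max i j) e := by
          rcases max_choice i j with h | h <;> rw [h]
          · exact (hmem i hi).1
          · exact (hmem j hj).1
        have h2 : q.minFac ≤ 2 ^ (2 ^ (min i j)) := by
          rcases min_choice i j with h | h <;> rw [h]
          · exact (hmem i hi).2
          · exact (hmem j hj).2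
        rw [if_pos h1, if_pos h2, mul_one]
    _ ≤ ∑ i ∈ S, ∑ j ∈ range J, (if rho (max i j) e then (1 : ℝ) else 0) *
        (if q.minFac ≤ 2 ^ (2 ^ (min i j)) then (1 : ℝ) else 0) :=
        sum_le_sum fun i hi => sum_le_sum_of_subset_of_nonneg hSr fun j _ _ =>
          mul_nonneg (by split_ifs <;> norm_num) (by split_ifs <;> norm_num)
    _ ≤ _ := sum_le_sum_of_subset_of_nonneg hSr fun i _ _ => sum_nonneg fun j _ =>
          mul_nonneg (by split_ifs <;> norm_num) (by split_ifs <;> norm_num)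

theorem geo (J : ℕ) : ∑ i ∈ range J, ∑ j ∈ range J,
    ((2 : ℝ) ^ (min i j) / 2 ^ (max i j)) ≤ 3 * J := by
  induction J with
  | zero => simp
  | succ J ih =>
    have h1 : ∀ i ∈ range J, (2 : ℝ) ^ (min i J) / 2 ^ (max i J) = 2 ^ i / 2 ^ J := by
      intro i hi
      have := (mem_range.1 hi).le
      rw [min_eq_left this, max_eq_right this]
    have h2 : ∀ j ∈ range J, (2 : ℝ) ^ (min J j) / 2 ^ (max J j) = 2 ^ j / 2 ^ J := by
      intro i hi
      have := (mem_range.1 hi).le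
      rw [min_eq_right this, max_eq_left this]
    have h3 : ∑ i ∈ range J, (2 : ℝ) ^ i / 2 ^ J ≤ 1 := by
      rw [← sum_div, div_le_one (by positivity), geom_sum_eq (by norm_num)]
      norm_num
    simp only [sum_range_succ, sum_add_distrib]
    rw [sum_congr rfl h1, sum_congr rfl h2, min_self, max_self, div_self (by positivity)]
    push_cast
    linarith

/-- prime powers with small base -/
theorem powers (K z : ℕ) :
    ∑ q ∈ (Icc 1 K).filter (fun q => q.minFac ≤ z),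
      ArithmeticFunction.vonMangoldt q / (q : ℝ) ≤
    ∑ p ∈ (Icc 1 z).filter Nat.Prime, Real.log p / (p - 1) := by
  classical
  set P := (Icc 1 z).filter Nat.Prime with hP
  set g : ℕ → ℝ := fun q => ArithmeticFunction.vonMangoldt q / (q : ℝ) with hg
  have hg0 : ∀ q, 0 ≤ g q := fun q => div_nonneg ArithmeticFunction.vonMangoldt_nonneg
    (Nat.cast_nonneg q)
  have hsub : ∑ q ∈ (Icc 1 K).filter (fun q => q.minFac ≤ z), g q ≤
      ∑ q ∈ (P ×ˢ Icc 1 K).image (fun x : ℕ × ℕ => x.1 ^ x.2), g q := by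
    rw [← sum_filter_add_sum_filter_not ((Icc 1 K).filter (fun q => q.minFac ≤ z))
      (fun q => g q ≠ 0)]
    have h0 : ∑ x ∈ ((Icc 1 K).filter (fun q => q.minFac ≤ z)).filter (fun x => ¬ g x ≠ 0), g x
        = 0 := by
      refine sum_eq_zero fun x hx => ?_
      have := (mem_filter.1 hx).2
      push Not at this
      exact this
    rw [h0, add_zero]
    refine sum_le_sum_of_subset_of_nonneg ?_ fun i _ _ => hg0 i
    intro q hq
    rw [mem_filter, mem_filter, mem_Icc] at hq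
    obtain ⟨⟨⟨hq1, hqK⟩, hqz⟩, hgq⟩ := hq
    have hL : ArithmeticFunction.vonMangoldt q ≠ 0 := by
      intro h
      apply hgq
      simp [hg, h]
    rw [ArithmeticFunction.vonMangoldt_ne_zero_iff, isPrimePow_nat_iff] at hL
    obtain ⟨p, k, hp, hk, rfl⟩ := hL
    rw [mem_image]
    refine ⟨(p, k), ?_, rfl⟩
    rw [mem_product]
    have hmf : (p ^ k).minFac = p := by
      rw [hp.pow_minFac (by omega)]
    rw [hmf] at hqz
    refine ⟨?_, ?_⟩
    · rw [hP, mem_filter, mem_Icc]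
      exact ⟨⟨hp.one_lt.le, hqz⟩, hp⟩
    · rw [mem_Icc]
      exact ⟨hk, (Nat.lt_pow_self hp.one_lt).le.trans hqK⟩
  refine hsub.trans ?_
  have himg : ∑ q ∈ (P ×ˢ Icc 1 K).image (fun x : ℕ × ℕ => x.1 ^ x.2), g q ≤
      ∑ x ∈ P ×ˢ Icc 1 K, g (x.1 ^ x.2) := by
    apply sum_image_le_of_nonneg
    intro q _
    exact hg0 _
  refine himg.trans ?_
  rw [sum_product]
  refine sum_le_sum fun p hp => ?_
  rw [hP, mem_filter] at hp
  have hpp := hp.2
  have hp1 : (1 : ℝ) < p := by exact_mod_cast hpp.one_lt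
  have hlog : 0 ≤ Real.log p := Real.log_nonneg hp1.le
  have hterm : ∀ a ∈ Icc 1 K, g (p ^ a) = Real.log p * (1 / p : ℝ) ^ a := by
    intro a ha
    have ha1 := (mem_Icc.1 ha).1
    simp only [hg]
    rw [ArithmeticFunction.vonMangoldt_apply_pow (by omega),
      ArithmeticFunction.vonMangoldt_apply_prime hpp]
    push_cast
    rw [div_pow, one_pow, mul_one_div]
  rw [sum_congr rfl hterm, ← mul_sum, div_eq_mul_one_div (Real.log p)]
  refine mul_le_mul_of_nonneg_left ?_ hlog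
  have hr0 : (0 : ℝ) ≤ 1 / p := by positivity
  have hr1 : (1 / p : ℝ) < 1 := by rw [div_lt_one (by linarith)]; exact hp1
  have e1 : ∑ a ∈ Icc 1 K, (1 / p : ℝ) ^ a = ∑ a ∈ range K, (1 / p : ℝ) ^ (a + 1) := by
    rw [range_eq_Ico, sum_Ico_add' (fun a => (1 / p : ℝ) ^ a) 0 K 1]
    congr 1
  rw [e1]
  have e2 : ∑ a ∈ range K, (1 / p : ℝ) ^ (a + 1) = (1 / p) * ∑ a ∈ range K, (1 / p : ℝ) ^ a := by
    rw [mul_sum]
    refine sum_congr rfl fun a _ => ?_
    rw [pow_succ]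
    ring
  rw [e2]
  have e3 : ∑ a ∈ range K, (1 / p : ℝ) ^ a ≤ (1 - 1 / (p : ℝ))⁻¹ := by
    rw [← tsum_geometric_of_lt_one hr0 hr1]
    exact Summable.sum_le_tsum _ (fun i _ => pow_nonneg hr0 i)
      (summable_geometric_of_lt_one hr0 hr1)
  calc (1 / p : ℝ) * ∑ a ∈ range K, (1 / p : ℝ) ^ a ≤ (1 / p) * (1 - 1 / (p : ℝ))⁻¹ :=
        mul_le_mul_of_nonneg_left e3 hr0
    _ = 1 / (p - 1) := by
        have : (p : ℝ) ≠ 0 := by positivity
        have h2 : (p : ℝ) - 1 ≠ 0 := by linarith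
        field_simp

theorem key {κ K J e q : ℕ} (he : 1 ≤ e) (heK : e ≤ K) (hq : 1 ≤ q) (hqK : q ≤ K / e) :
    (Nat.totient e : ℝ) * (ArithmeticFunction.vonMangoldt q / q) *
      ((mm κ K J e : ℝ) - q * (mm κ K J (e * q) : ℝ)) ^ 2 ≤
    (1 / e) * (ArithmeticFunction.vonMangoldt q / q) *
      (2 * κ ^ 2 * ((tt J e : ℝ) - tt J (e * q)) ^ 2 + 2 * K ^ 2 * J ^ 2) := by
  have heq : e * q ≤ K := by
    calc e * q ≤ e * (K / e) := Nat.mul_le_mul_left e hqK
      _ ≤ K := Nat.mul_div_le K e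
  have heq1 : 1 ≤ e * q := Nat.one_le_iff_ne_zero.2 (by positivity)
  have hm1 : mm κ K J e = κ / e * tt J e := if_pos ⟨he, heK⟩
  have hm2 : mm κ K J (e * q) = κ / (e * q) * tt J (e * q) := if_pos ⟨heq1, heq⟩
  rw [hm1, hm2]
  have hr1 : (e : ℝ) * ((κ / e : ℕ) : ℝ) + ((κ % e : ℕ) : ℝ) = κ := by
    exact_mod_cast Nat.div_add_mod κ e
  have hr2 : (e : ℝ) * q * ((κ / (e * q) : ℕ) : ℝ) + ((κ % (e * q) : ℕ) : ℝ) = κ := by
    exact_mod_cast Nat.div_add_mod κ (e * q)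
  have hb1 : ((κ % e : ℕ) : ℝ) ≤ K := by
    exact_mod_cast (Nat.mod_lt κ (by omega)).le.trans heK
  have hb2 : ((κ % (e * q) : ℕ) : ℝ) ≤ K := by
    exact_mod_cast (Nat.mod_lt κ (by omega)).le.trans heq
  have hc1 : (0 : ℝ) ≤ ((κ % e : ℕ) : ℝ) := Nat.cast_nonneg _
  have hc2 : (0 : ℝ) ≤ ((κ % (e * q) : ℕ) : ℝ) := Nat.cast_nonneg _
  have ht1 : (tt J e : ℝ) ≤ J := by exact_mod_cast tt_le J e
  have ht2 : (tt J (e * q) : ℝ) ≤ J := by exact_mod_cast tt_le J (e * q)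
  have ht3 : (0 : ℝ) ≤ (tt J e : ℝ) := Nat.cast_nonneg _
  have ht4 : (0 : ℝ) ≤ (tt J (e * q) : ℝ) := Nat.cast_nonneg _
  set t1 : ℝ := (tt J e : ℝ)
  set t2 : ℝ := (tt J (e * q) : ℝ)
  set r1 : ℝ := ((κ % e : ℕ) : ℝ)
  set r2 : ℝ := ((κ % (e * q) : ℕ) : ℝ)
  set a : ℝ := ((κ / e : ℕ) : ℝ)
  set b : ℝ := ((κ / (e * q) : ℕ) : ℝ)
  have he0 : (0 : ℝ) < e := by exact_mod_cast he
  have hD : (((κ / e * tt J e : ℕ) : ℝ) - q * ((κ / (e * q) * tt J (e * q) : ℕ) : ℝ)) =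
      a * t1 - q * (b * t2) := by push_cast; rfl
  rw [hD]
  have hL : (0 : ℝ) ≤ ArithmeticFunction.vonMangoldt q / q :=
    div_nonneg ArithmeticFunction.vonMangoldt_nonneg (Nat.cast_nonneg q)
  have hphi : (Nat.totient e : ℝ) ≤ e := by exact_mod_cast Nat.totient_le e
  have hprod : e * (a * t1 - q * (b * t2)) = κ * (t1 - t2) - (r1 * t1 - r2 * t2) := by
    have h1 : (e : ℝ) * a = κ - r1 := by linarith
    have h2 : (e : ℝ) * q * b = κ - r2 := by linarith
    calc e * (a * t1 - q * (b * t2)) = (e * a) * t1 - (e * q * b) * t2 := by ring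
      _ = _ := by rw [h1, h2]; ring
  have hu1 : r1 * t1 ≤ K * J := mul_le_mul hb1 ht1 ht3 (Nat.cast_nonneg K)
  have hu2 : r2 * t2 ≤ K * J := mul_le_mul hb2 ht2 ht4 (Nat.cast_nonneg K)
  have hv1 : 0 ≤ r1 * t1 := mul_nonneg hc1 ht3
  have hv2 : 0 ≤ r2 * t2 := mul_nonneg hc2 ht4
  have hw : (r1 * t1 - r2 * t2) ^ 2 ≤ (K * J : ℝ) ^ 2 := by
    apply sq_le_sq'
    · linarith
    · linarith
  have hsq : (e * (a * t1 - q * (b * t2))) ^ 2 ≤
      2 * κ ^ 2 * (t1 - t2) ^ 2 + 2 * K ^ 2 * J ^ 2 := by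
    rw [hprod]
    nlinarith [sq_nonneg (κ * (t1 - t2) + (r1 * t1 - r2 * t2))]
  calc (Nat.totient e : ℝ) * (ArithmeticFunction.vonMangoldt q / q) * (a * t1 - q * (b * t2)) ^ 2
      ≤ e * (ArithmeticFunction.vonMangoldt q / q) * (a * t1 - q * (b * t2)) ^ 2 :=
        mul_le_mul_of_nonneg_right (mul_le_mul_of_nonneg_right hphi hL) (sq_nonneg _)
    _ = (1 / e) * (ArithmeticFunction.vonMangoldt q / q) * (e * (a * t1 - q * (b * t2))) ^ 2 := by
        field_simp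
    _ ≤ _ := mul_le_mul_of_nonneg_left hsq (by positivity)

end ModS2

open ModS2 in
theorem s2 (hR : StmtR) (hA : StmtA) : StmtS2 := by
  classical
  obtain ⟨CA, hCA, hA1, hA2⟩ := hA
  obtain ⟨CR, hCR, hR⟩ := hR
  refine ⟨2 * (3 * ((1 + CA) * (CR * 2))) + 2 * (3 * (1 + 2 * CA)), by positivity, ?_⟩
  intro κ K J hJK
  have hK2 : 2 ≤ K := by
    refine le_trans ?_ hJK
    calc 2 = 2 ^ 1 := rfl
      _ ≤ 2 ^ (2 ^ J) := Nat.pow_le_pow_right (by norm_num) Nat.one_le_two_pow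
  have hK1 : 1 ≤ K := by omega
  have hlog2 : (1 : ℝ) / 2 < Real.log 2 := by have := Real.log_two_gt_d9; linarith
  have hlogK : Real.log 2 ≤ Real.log K := Real.log_le_log (by norm_num) (by exact_mod_cast hK2)
  have hlogK0 : 0 < Real.log K := by linarith
  set w : ℕ → ℝ := fun q => ArithmeticFunction.vonMangoldt q / (q : ℝ) with hw
  have hw0 : ∀ q, 0 ≤ w q := fun q => div_nonneg ArithmeticFunction.vonMangoldt_nonneg
    (Nat.cast_nonneg q)
  -- pointwise
  have step1 : EE K (fun d => (mm κ K J d : ℝ)) ≤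
      ∑ e ∈ Icc 1 K, ∑ q ∈ Icc 1 (K / e), (1 / (e : ℝ)) * w q *
        (2 * κ ^ 2 * ((tt J e : ℝ) - tt J (e * q)) ^ 2 + 2 * K ^ 2 * J ^ 2) := by
    unfold EE
    refine sum_le_sum fun e he => sum_le_sum fun q hq => ?_
    rw [mem_Icc] at he hq
    exact key he.1 he.2 hq.1 hq.2
  have step2 : ∑ e ∈ Icc 1 K, ∑ q ∈ Icc 1 (K / e), (1 / (e : ℝ)) * w q *
        (2 * κ ^ 2 * ((tt J e : ℝ) - tt J (e * q)) ^ 2 + 2 * K ^ 2 * J ^ 2) ≤
      ∑ e ∈ Icc 1 K, ∑ q ∈ Icc 1 K, (1 / (e : ℝ)) * w q *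
        (2 * κ ^ 2 * ((tt J e : ℝ) - tt J (e * q)) ^ 2 + 2 * K ^ 2 * J ^ 2) := by
    refine sum_le_sum fun e he => sum_le_sum_of_subset_of_nonneg ?_ fun q _ _ => ?_
    · exact Icc_subset_Icc_right (Nat.div_le_self K e)
    · exact mul_nonneg (mul_nonneg (by positivity) (hw0 q)) (by positivity)
  have step3 : ∑ e ∈ Icc 1 K, ∑ q ∈ Icc 1 K, (1 / (e : ℝ)) * w q *
        (2 * κ ^ 2 * ((tt J e : ℝ) - tt J (e * q)) ^ 2 + 2 * K ^ 2 * J ^ 2) =
      2 * κ ^ 2 * (∑ e ∈ Icc 1 K, ∑ q ∈ Icc 1 K, (1 / (e : ℝ)) * w q *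
        ((tt J e : ℝ) - tt J (e * q)) ^ 2) +
      2 * K ^ 2 * J ^ 2 * ((∑ e ∈ Icc 1 K, (1 / (e : ℝ))) * ∑ q ∈ Icc 1 K, w q) := by
    rw [sum_mul_sum, mul_sum, mul_sum, ← sum_add_distrib]
    refine sum_congr rfl fun e _ => ?_
    rw [mul_sum, mul_sum, ← sum_add_distrib]
    refine sum_congr rfl fun q _ => ?_
    ring
  -- the second part
  have hAK : ∑ q ∈ Icc 1 K, w q ≤ (1 + 2 * CA) * Real.log K := by
    have := (abs_le.1 (hA1 K hK1)).2
    have h2 : A K = ∑ q ∈ Icc 1 K, w q := rfl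
    rw [← h2]
    nlinarith
  have hHK : ∑ e ∈ Icc 1 K, (1 / (e : ℝ)) ≤ 3 * Real.log K := by
    have h1 : ∑ e ∈ Icc 1 K, (1 / (e : ℝ)) = (harmonic K : ℝ) := by
      rw [harmonic_eq_sum_Icc]
      push_cast
      refine sum_congr rfl fun e _ => by rw [one_div]
    rw [h1]
    have := harmonic_le_one_add_log K
    linarith
  have hH0 : 0 ≤ ∑ e ∈ Icc 1 K, (1 / (e : ℝ)) := sum_nonneg fun e _ => by positivity
  have hW0 : 0 ≤ ∑ q ∈ Icc 1 K, w q := sum_nonneg fun q _ => hw0 q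
  have part2 : (∑ e ∈ Icc 1 K, (1 / (e : ℝ))) * ∑ q ∈ Icc 1 K, w q ≤
      3 * (1 + 2 * CA) * Real.log K ^ 2 := by
    calc _ ≤ (3 * Real.log K) * ((1 + 2 * CA) * Real.log K) :=
          mul_le_mul hHK hAK hW0 (by positivity)
      _ = _ := by ring
  -- the first part
  have part1 : ∑ e ∈ Icc 1 K, ∑ q ∈ Icc 1 K, (1 / (e : ℝ)) * w q *
        ((tt J e : ℝ) - tt J (e * q)) ^ 2 ≤ 3 * ((1 + CA) * (CR * 2)) * (J * Real.log K) := by
    have h1 : ∑ e ∈ Icc 1 K, ∑ q ∈ Icc 1 K, (1 / (e : ℝ)) * w q *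
        ((tt J e : ℝ) - tt J (e * q)) ^ 2 ≤
        ∑ e ∈ Icc 1 K, ∑ q ∈ Icc 1 K, (1 / (e : ℝ)) * w q *
          ∑ i ∈ range J, ∑ j ∈ range J, (if rho (max i j) e then (1 : ℝ) else 0) *
            (if q.minFac ≤ 2 ^ (2 ^ (min i j)) then (1 : ℝ) else 0) := by
      refine sum_le_sum fun e _ => sum_le_sum fun q _ => ?_
      exact mul_le_mul_of_nonneg_left (tdiff J e q) (mul_nonneg (by positivity) (hw0 q))
    have h2 : ∑ e ∈ Icc 1 K, ∑ q ∈ Icc 1 K, (1 / (e : ℝ)) * w q *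
          ∑ i ∈ range J, ∑ j ∈ range J, (if rho (max i j) e then (1 : ℝ) else 0) *
            (if q.minFac ≤ 2 ^ (2 ^ (min i j)) then (1 : ℝ) else 0) =
        ∑ i ∈ range J, ∑ j ∈ range J,
          (∑ e ∈ (Icc 1 K).filter (fun e => rho (max i j) e), (1 : ℝ) / e) *
          (∑ q ∈ (Icc 1 K).filter (fun q => q.minFac ≤ 2 ^ (2 ^ (min i j))), w q) := by
      simp only [mul_sum, sum_filter]
      rw [sum_congr rfl fun e _ => sum_comm]
      rw [sum_comm]
      refine sum_congr rfl fun i _ => ?_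
      rw [sum_congr rfl fun e _ => sum_comm]
      rw [sum_comm]
      refine sum_congr rfl fun j _ => ?_
      rw [sum_comm]
      refine sum_congr rfl fun q _ => ?_
      rw [sum_mul]
      refine sum_congr rfl fun e _ => ?_
      split_ifs <;> ring
    rw [h2] at h1
    refine h1.trans ?_
    have h3 : ∀ i ∈ range J, ∀ j ∈ range J,
        (∑ e ∈ (Icc 1 K).filter (fun e => rho (max i j) e), (1 : ℝ) / e) *
          (∑ q ∈ (Icc 1 K).filter (fun q => q.minFac ≤ 2 ^ (2 ^ (min i j))), w q) ≤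
        ((1 + CA) * (CR * 2) * Real.log K) * ((2 : ℝ) ^ (min i j) / 2 ^ (max i j)) := by
      intro i hi j hj
      rw [mem_range] at hi hj
      have hmax : max i j < J := max_lt hi hj
      have hz2 : 2 ≤ 2 ^ (2 ^ (max i j)) := by
        calc 2 = 2 ^ 1 := rfl
          _ ≤ 2 ^ (2 ^ (max i j)) := Nat.pow_le_pow_right (by norm_num) Nat.one_le_two_pow
      have hzK : 2 ^ (2 ^ (max i j)) ≤ K :=
        (Nat.pow_le_pow_right (by norm_num) (Nat.pow_le_pow_right (by norm_num) hmax.le)).trans hJK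
      have r1 := hR K _ hz2 hzK
      have r1' : ∑ e ∈ (Icc 1 K).filter (fun e => rho (max i j) e), (1 : ℝ) / e ≤
          CR * 2 * Real.log K / 2 ^ (max i j) := by
        refine le_trans (le_of_eq ?_) (r1.trans ?_)
        · refine sum_congr ?_ fun _ _ => rfl
          ext e
          rw [mem_filter, mem_filter]
          rfl
        · push_cast
          rw [Real.log_pow]
          push_cast
          rw [div_le_div_iff₀ (by positivity) (by positivity)]
          have : (0 : ℝ) ≤ CR * Real.log K * 2 ^ (max i j) := by positivity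
          nlinarith
      have r2 : ∑ q ∈ (Icc 1 K).filter (fun q => q.minFac ≤ 2 ^ (2 ^ (min i j))), w q ≤
          (1 + CA) * 2 ^ (min i j) := by
        refine (powers K _).trans ((hA2 _ Nat.one_le_two_pow).trans ?_)
        push_cast
        rw [Real.log_pow]
        push_cast
        have h4 : Real.log 2 ≤ 1 := by have := Real.log_two_lt_d9; linarith
        have h5 : (1 : ℝ) ≤ 2 ^ (min i j) := one_le_pow₀ (by norm_num)
        nlinarith
      calc _ ≤ (CR * 2 * Real.log K / 2 ^ (max i j)) * ((1 + CA) * 2 ^ (min i j)) :=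
            mul_le_mul r1' r2 (sum_nonneg fun q _ => hw0 q) (by positivity)
        _ = _ := by ring
    calc _ ≤ ∑ i ∈ range J, ∑ j ∈ range J,
          ((1 + CA) * (CR * 2) * Real.log K) * ((2 : ℝ) ^ (min i j) / 2 ^ (max i j)) :=
          sum_le_sum fun i hi => sum_le_sum fun j hj => h3 i hi j hj
      _ = ((1 + CA) * (CR * 2) * Real.log K) * ∑ i ∈ range J, ∑ j ∈ range J,
            ((2 : ℝ) ^ (min i j) / 2 ^ (max i j)) := by
          rw [mul_sum]
          refine sum_congr rfl fun i _ => by rw [mul_sum]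
      _ ≤ ((1 + CA) * (CR * 2) * Real.log K) * (3 * J) :=
          mul_le_mul_of_nonneg_left (geo J) (by positivity)
      _ = _ := by ring
  refine step1.trans (step2.trans ?_)
  rw [step3]
  have f1 : 2 * (κ : ℝ) ^ 2 * (∑ e ∈ Icc 1 K, ∑ q ∈ Icc 1 K, (1 / (e : ℝ)) * w q *
        ((tt J e : ℝ) - tt J (e * q)) ^ 2) ≤
      2 * κ ^ 2 * (3 * ((1 + CA) * (CR * 2)) * (J * Real.log K)) :=
    mul_le_mul_of_nonneg_left part1 (by positivity)
  have f2 : 2 * (K : ℝ) ^ 2 * J ^ 2 * ((∑ e ∈ Icc 1 K, (1 / (e : ℝ))) * ∑ q ∈ Icc 1 K, w q) ≤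
      2 * K ^ 2 * J ^ 2 * (3 * (1 + 2 * CA) * Real.log K ^ 2) :=
    mul_le_mul_of_nonneg_left part2 (by positivity)
  have g1 : 0 ≤ (κ : ℝ) ^ 2 * J * Real.log K := by positivity
  have g2 : 0 ≤ (J : ℝ) ^ 2 * K ^ 2 * Real.log K ^ 2 := by positivity
  have g3 : 0 < (1 + CA) * (CR * 2) := by positivity
  nlinarith [mul_nonneg g3.le g2, mul_nonneg hCA.le g1]

end Pool.Agent.T6.H1.OV
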