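import Mathlib
import Pool.Agent.T6.H1.OV.Defs

/-!
Project OV (helper1), module V (helper43): the determinant of the confluent Vandermonde matrix.
-/

set_option autoImplicit false

open scoped BigOperators
open Finset Polynomial

namespace Pool.Agent.T6.H1.OV

namespace ModV

/-- the Newton polynomials -/
noncomputable def NN {n : ℕ} (z : Fin n → ℂ) (l : Fin n) : ℂ[X] :=
  ∏ t ∈ univ.filter (fun t => t < l), (X - C (z t))

lemma NN_monic {n : ℕ} (z : Fin n → ℂ) (l : Fin n) : (NN z l).Monic :=
  monic_prod_of_monic _ _ fun t _ => monic_X_sub_C (z t)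

lemma card_lt {n : ℕ} (l : Fin n) : (univ.filter (fun t : Fin n => t < l)).card = (l : ℕ) := by
  have : univ.filter (fun t : Fin n => t < l) = Finset.Iio l := by
    ext t; simp
  rw [this, Fin.card_Iio]

lemma NN_deg {n : ℕ} (z : Fin n → ℂ) (l : Fin n) : (NN z l).natDegree = (l : ℕ) := by
  rw [NN, natDegree_prod_of_monic _ _ fun t _ => monic_X_sub_C (z t)]
  simp only [natDegree_X_sub_C, sum_const, smul_eq_mul, mul_one]
  exact card_lt l

/-- the coefficients of the Newton polynomials -/
noncomputable def BB {n : ℕ} (z : Fin n → ℂ) : Matrix (Fin n) (Fin n) ℂ :=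
  fun l' l => (NN z l).coeff (l' : ℕ)

lemma BB_det {n : ℕ} (z : Fin n → ℂ) : (BB z).det = 1 := by
  rw [Matrix.det_of_upperTriangular]
  · refine Finset.prod_eq_one fun i _ => ?_
    have := NN_monic z i
    rw [Monic, leadingCoeff, NN_deg] at this
    exact this
  · intro i j hij
    refine coeff_eq_zero_of_natDegree_lt ?_
    rw [NN_deg]
    exact hij

lemma WB {n : ℕ} (z : Fin n → ℂ) (i l : Fin n) :
    (W z * BB z) i l = (taylor (z i) (NN z l)).coeff (idx z i) := by
  rw [taylor_coeff, hasseDeriv_apply, eval_sum, sum_over_range' _ _ n]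
  · rw [Matrix.mul_apply, ← Fin.sum_univ_eq_sum_range (fun a => eval (z i) ((monomial (a - idx z i))
      (((a.choose (idx z i) : ℕ) : ℂ) * (NN z l).coeff a)))]
    refine Finset.sum_congr rfl fun t _ => ?_
    rw [eval_monomial, W, BB]
    ring
  · rw [NN_deg]; exact l.2
  · intro a
    simp

lemma taylor_NN {n : ℕ} (z : Fin n → ℂ) (r : ℂ) (l : Fin n) :
    taylor r (NN z l) = ∏ t ∈ univ.filter (fun t => t < l), (X + C (r - z t)) := by
  rw [NN, ← taylorAlgHom_apply, map_prod]
  refine Finset.prod_congr rfl fun t _ => ?_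
  rw [taylorAlgHom_apply, map_sub, taylor_X, taylor_C, C_sub]
  ring

open Classical in
lemma taylor_split {n : ℕ} (z : Fin n → ℂ) (i l : Fin n) :
    taylor (z i) (NN z l) = X ^ (univ.filter (fun t => t < l ∧ z t = z i)).card *
      ∏ t ∈ univ.filter (fun t => t < l ∧ z t ≠ z i), (X + C (z i - z t)) := by
  rw [taylor_NN, ← Finset.prod_filter_mul_prod_filter_not _ (fun t => z t = z i)]
  congr 1
  · rw [Finset.filter_filter]
    rw [← Finset.prod_const]
    refine Finset.prod_congr rfl fun t ht => ?_
    rw [Finset.mem_filter] at ht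
    rw [ht.2.2]
    simp
  · rw [Finset.filter_filter]

open Classical in
lemma WB_lt {n : ℕ} (z : Fin n → ℂ) (i l : Fin n) (h : i < l) : (W z * BB z) i l = 0 := by
  rw [WB, taylor_split, coeff_X_pow_mul', if_neg]
  rw [not_le, idx]
  refine Finset.card_lt_card ?_
  rw [Finset.ssubset_iff_of_subset]
  · exact ⟨i, by simp [h], by simp⟩
  · intro t ht
    rw [Finset.mem_filter] at ht ⊢
    exact ⟨ht.1, ht.2.1.trans h, ht.2.2⟩

open Classical in
lemma WB_diag {n : ℕ} (z : Fin n → ℂ) (i : Fin n) :
    (W z * BB z) i i = ∏ t ∈ univ.filter (fun t => t < i ∧ z t ≠ z i), (z i - z t) := by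
  have e : idx z i = (univ.filter (fun t => t < i ∧ z t = z i)).card := rfl
  rw [WB, taylor_split, coeff_X_pow_mul', e, if_pos le_rfl, Nat.sub_self,
    coeff_zero_eq_eval_zero, eval_prod]
  refine Finset.prod_congr rfl fun t _ => ?_
  simp

open Classical in
lemma W_det {n : ℕ} (z : Fin n → ℂ) :
    (W z).det = ∏ i, ∏ t ∈ univ.filter (fun t => t < i ∧ z t ≠ z i), (z i - z t) := by
  have h : (W z * BB z).det = (W z).det := by
    rw [Matrix.det_mul, BB_det, mul_one]
  rw [← h, Matrix.det_of_lowerTriangular]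
  · exact Finset.prod_congr rfl fun i _ => WB_diag z i
  · intro i j hij
    exact WB_lt z i j hij

end ModV

open ModV in
open Classical in
theorem v : StmtV := by
  intro n z
  have hne : (W z).det ≠ 0 := by
    rw [W_det]
    refine Finset.prod_ne_zero_iff.2 fun i _ => Finset.prod_ne_zero_iff.2 fun t ht => ?_
    rw [Finset.mem_filter] at ht
    exact sub_ne_zero.2 (Ne.symm ht.2.2)
  refine ⟨hne, ?_⟩
  have e1 : Real.log ‖(W z).det‖ = ∑ i, ∑ t, if t < i then Real.log ‖z i - z t‖ else 0 := by
    rw [W_det, norm_prod, Real.log_prod]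
    · refine Finset.sum_congr rfl fun i _ => ?_
      rw [norm_prod, Real.log_prod]
      · rw [← Finset.sum_filter]
        refine Finset.sum_subset ?_ ?_
        · intro t ht
          rw [Finset.mem_filter] at ht ⊢
          exact ⟨ht.1, ht.2.1⟩
        · intro t ht ht'
          rw [Finset.mem_filter] at ht ht'
          have : z t = z i := by
            by_contra hne
            exact ht' ⟨ht.1, ht.2, hne⟩
          rw [this, sub_self, norm_zero, Real.log_zero]
      · intro t ht
        rw [Finset.mem_filter] at ht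
        rw [norm_ne_zero_iff]
        exact sub_ne_zero.2 (Ne.symm ht.2.2)
    · intro i _
      rw [norm_ne_zero_iff]
      refine Finset.prod_ne_zero_iff.2 fun t ht => ?_
      rw [Finset.mem_filter] at ht
      exact sub_ne_zero.2 (Ne.symm ht.2.2)
  have e2 : PL z = (∑ i, ∑ t, if t < i then Real.log ‖z i - z t‖ else 0) +
      ∑ i, ∑ t, if i < t then Real.log ‖z i - z t‖ else 0 := by
    rw [PL, ← Finset.sum_add_distrib]
    refine Finset.sum_congr rfl fun i _ => ?_
    rw [← Finset.sum_add_distrib]
    refine Finset.sum_congr rfl fun t _ => ?_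
    rcases lt_trichotomy t i with h | h | h
    · simp [h, h.not_gt]
    · subst h; simp
    · simp [h, h.not_gt]
  have e3 : (∑ i, ∑ t, if i < t then Real.log ‖z i - z t‖ else 0) =
      ∑ i, ∑ t, if t < i then Real.log ‖z i - z t‖ else 0 := by
    rw [Finset.sum_comm]
    refine Finset.sum_congr rfl fun i _ => Finset.sum_congr rfl fun t _ => ?_
    rw [norm_sub_rev]
  rw [e2, e3, e1]
  ring

end Pool.Agent.T6.H1.OV
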