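import Pool.Agent.T6.H1.OV.Defs
import Pool.Agent.Erdos456.Mertens

/-!
# Module A: Mertens for the von Mangoldt function
-/

set_option autoImplicit false

open scoped BigOperators
open Finset Polynomial

namespace Pool.Agent.T6.H1.OV

namespace ModA

open ArithmeticFunction in
theorem log_factorial (N : ℕ) :
    Real.log (N.factorial : ℝ) = ∑ d ∈ Icc 1 N, vonMangoldt d * ((N / d : ℕ) : ℝ) := by
  have h1 : Real.log (N.factorial : ℝ) = ∑ m ∈ Icc 1 N, Real.log m := by
    induction N with
    | zero => simp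
    | succ n ih =>
      rw [Nat.factorial_succ, Nat.cast_mul, Real.log_mul (by positivity) (by positivity), ih,
        Finset.sum_Icc_succ_top (by omega)]
      ring
  rw [h1]
  have h2 : ∀ m ∈ Icc 1 N, Real.log m = ∑ d ∈ Icc 1 N, if d ∣ m then vonMangoldt d else 0 := by
    intro m hm
    rw [mem_Icc] at hm
    rw [← vonMangoldt_sum, ← Finset.sum_filter]
    refine Finset.sum_congr ?_ fun _ _ => rfl
    ext d
    rw [Nat.mem_divisors, mem_filter, mem_Icc]
    constructor
    · rintro ⟨h, h'⟩
      exact ⟨⟨Nat.pos_of_dvd_of_pos h (by omega), (Nat.le_of_dvd (by omega) h).trans hm.2⟩, h⟩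
    · rintro ⟨_, h⟩
      exact ⟨h, by omega⟩
  rw [Finset.sum_congr rfl h2, Finset.sum_comm]
  refine Finset.sum_congr rfl fun d _ => ?_
  rw [← Finset.sum_filter, Finset.sum_const, nsmul_eq_mul, mul_comm]
  congr 2
  exact Nat.Ioc_filter_dvd_card_eq_div N d

open ArithmeticFunction in
theorem psi_le (N : ℕ) : ∑ d ∈ Icc 1 N, vonMangoldt d ≤ (Real.log 4 + 4) * N := by
  have h := Chebyshev.psi_le_const_mul_self (x := (N : ℝ)) (by positivity)
  rw [Chebyshev.psi_eq_sum_Icc, Nat.floor_natCast] at h
  refine le_trans (Finset.sum_le_sum_of_subset_of_nonneg ?_ fun _ _ _ => vonMangoldt_nonneg) h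
  intro x hx
  rw [mem_Icc] at hx ⊢
  omega

end ModA

open ArithmeticFunction ModA Pool.Agent.Erdos456.Mert in
theorem a : StmtA := by
  obtain ⟨C1, hC1⟩ := mertens_log
  obtain ⟨C2, hC20, hC2⟩ := sum_small_bound
  have hC10 : 0 ≤ C1 := (abs_nonneg _).trans (hC1 1 le_rfl)
  refine ⟨C1 + C2 + 7, by linarith, ?_, ?_⟩
  · intro N hN
    have hN' : (0 : ℝ) < N := by exact_mod_cast hN
    have hN1 : (1 : ℝ) ≤ N := by exact_mod_cast hN
    have hup : Real.log (N.factorial : ℝ) ≤ N * Real.log N := by
      rw [← Real.log_pow]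
      apply Real.log_le_log
      · exact_mod_cast N.factorial_pos
      · exact_mod_cast N.factorial_le_pow
    have hlo : N * Real.log N - N ≤ Real.log (N.factorial : ℝ) := by
      have h1 := Stirling.le_log_factorial_stirling (n := N) (by omega)
      have h2 : 0 ≤ Real.log N := Real.log_nonneg hN1
      have h3 : 0 ≤ Real.log (2 * Real.pi) := Real.log_nonneg (by linarith [Real.pi_gt_three])
      linarith
    have hA : (N : ℝ) * A N = ∑ d ∈ Icc 1 N, vonMangoldt d * ((N : ℝ) / d) := by
      rw [A, Finset.mul_sum]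
      exact Finset.sum_congr rfl fun d _ => by ring
    have h1 : Real.log (N.factorial : ℝ) ≤ N * A N := by
      rw [log_factorial, hA]
      refine Finset.sum_le_sum fun d _ => ?_
      exact mul_le_mul_of_nonneg_left Nat.cast_div_le vonMangoldt_nonneg
    have h2 : N * A N ≤ Real.log (N.factorial : ℝ) + (Real.log 4 + 4) * N := by
      refine le_trans ?_ (add_le_add_right (psi_le N) _)
      rw [log_factorial, hA, ← Finset.sum_add_distrib]
      refine Finset.sum_le_sum fun d _ => ?_
      have h6 : (N : ℝ) / d ≤ ((N / d : ℕ) : ℝ) + 1 := by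
        rw [← Nat.floor_div_eq_div (K := ℝ)]
        exact (Nat.lt_floor_add_one _).le
      calc vonMangoldt d * ((N : ℝ) / d) ≤ vonMangoldt d * (((N / d : ℕ) : ℝ) + 1) :=
            mul_le_mul_of_nonneg_left h6 vonMangoldt_nonneg
        _ = _ := by ring
    have hl4 : Real.log 4 ≤ 2 := by
      have : Real.log 4 = 2 * Real.log 2 := by
        rw [show (4 : ℝ) = 2 ^ 2 by norm_num, Real.log_pow]; norm_num
      have := Real.log_two_lt_d9
      linarith
    rw [abs_le]
    constructor
    · have h3 : (N : ℝ) * (Real.log N - 1) ≤ N * A N := by linarith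
      have := le_of_mul_le_mul_left h3 hN'
      linarith
    · have h3 : (N : ℝ) * A N ≤ N * (Real.log N + (Real.log 4 + 4)) := by linarith
      have := le_of_mul_le_mul_left h3 hN'
      linarith
  · intro z hz
    have h1 := abs_le.1 (hC1 z hz)
    have h2 := hC2 z
    have h3 : ∑ p ∈ (Icc 1 z).filter Nat.Prime, Real.log p / (p - 1) =
        ∑ p ∈ (Icc 1 z).filter Nat.Prime, Real.log p / p +
          ∑ p ∈ PP z, Real.log p / (p * (p - 1)) := by
      rw [← Finset.sum_add_distrib]
      refine Finset.sum_congr rfl fun p hp => ?_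
      rw [mem_filter] at hp
      have h2' : (2 : ℝ) ≤ p := by exact_mod_cast hp.2.two_le
      have : (p : ℝ) ≠ 0 := by linarith
      have : (p : ℝ) - 1 ≠ 0 := by linarith
      field_simp
      ring
    rw [h3]
    linarith [h1.2]

end Pool.Agent.T6.H1.OV
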